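import Pool.Agent.Helper30.UNS.Bx

/-! ROW B_UNS, final form: at a typical window, in the box of the base label, on all events of all extensions, `z` is
unsaturated given its coarse digits and ALL the visible digits of `M = (t, y, R)`. -/

set_option autoImplicit false

namespace Pool.Agent.Helper30.UNS

open Finset Filter Topology Pool.Agent.Helper69.RK Pool.Agent.Helper31.EC Pool.Agent.Helper31.EC.Sp
open Pool.Agent.Helper40.EL Pool.Agent.Helper52.KP Pool.Agent.Helper42.NS Pool.Agent.Helper91.GR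
open Pool.Agent.Helper80.HCI Pool.Agent.Helper60.CS Pool.Agent.Helper98.FR

noncomputable section

open QS

variable {S : Sp}

theorem C3_JR : C3.JR = {0, 1} := by decide
theorem C3_Jz : C3.Jz = {0, 1, 2} := by decide

/-- the data of NC at a window, from sheets -/
theorem WN_of_HH {s : Sys S 3} {c lam eta : ℝ} (hR : HH (SJ 1 {0, 1}) s c lam) (hz : HH (SJ 2 {0, 1, 2}) s c eta)
    (hf : ∀ l : Lab S, IsKap s c l → (1 - c) + (1 - lam) ≤
      h (up1 l (TR.dg (TR.cor s.P 0) 1 ⊔ TR.dg (TR.cor s.P 1) 1)) (up1 l s.T)) : WN C3 s c lam eta := by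
  obtain ⟨lR, vR, dR, sR⟩ := Sht_of_HH hR
  obtain ⟨lz, vz, dz, sz⟩ := Sht_of_HH hz
  obtain ⟨κ1, h1⟩ : ∃ κ1 : Lab S, κ1 = fun k => (kap s c k).join (lR k) := ⟨_, rfl⟩
  obtain ⟨κ2, h2⟩ : ∃ κ2 : Lab S, κ2 = fun k => (κ1 k).join (lz k) := ⟨_, rfl⟩
  have k1 : IsKap s c κ1 := by rw [h1]; exact join_kap (kap_isKap s c) dR
  have k2 : IsKap s c κ2 := by rw [h2]; exact join_kap k1 dz
  have d1 : Dom κ2 κ1 := by rw [h2]; exact Dom.left _ _
  have d2 : Dom κ2 lz := by rw [h2]; exact Dom.right _ _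
  have d3 : Dom κ1 lR := by rw [h1]; exact Dom.right _ _
  obtain ⟨v, hv⟩ := Sht_dom sz d2
  obtain ⟨w, hw⟩ := Sht_dom sR (d1.trans d3)
  refine ⟨κ2, v, w, k2, ?_, ?_, ?_⟩
  · rw [C3_Jz]
    exact hv
  · rw [C3_JR]
    exact hw
  · have e1 : C3.M s 1 = TR.dg (TR.cor s.P 0) 1 ⊔ TR.dg (TR.cor s.P 1) 1 := by
      unfold Cd.M
      rw [fl_dg]
      rfl
    rw [e1]
    have := hf κ2 k2
    push_cast
    linarith

/-- THE DATA OF LEVEL 1 near the window `c`, on all events of all extensions: depths `lam` of the slab of `R = P_1` over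
`(t, P_0)`, depths `eta` of the sheet of `z = P_2` over `(t, P_0, P_1)`, fullness of `(t, P_0, P_1)` -/
structure Lev (s : Sys S 3) (c d : ℝ) (lam eta : ℝ → ℝ) : Prop where
  rp : Pool.Agent.Helper52.SL.RobP s
  hR : ∀ (T : Sp) (p : Pj T S) (E : ∀ k, (T.F k).Ω → Prop) (hE : 0 < ul (T.pr E)) (c' : ℝ), |c' - c| < d →
    HH (SJ 1 {0, 1}) (s.im p E hE) c' (lam c')
  hz : ∀ (T : Sp) (p : Pj T S) (E : ∀ k, (T.F k).Ω → Prop) (hE : 0 < ul (T.pr E)) (c' : ℝ), |c' - c| < d →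
    HH (SJ 2 {0, 1, 2}) (s.im p E hE) c' (eta c')
  full : ∀ (T : Sp) (p : Pj T S) (E : ∀ k, (T.F k).Ω → Prop) (hE : 0 < ul (T.pr E)) (c' : ℝ), |c' - c| < d →
    ∀ l : Lab (Sp.im p E), IsKap (s.im p E hE) c' l → (1 - c') + (1 - lam c') ≤
      h (up1 l (TR.dg (TR.cor (s.im p E hE).P 0) 1 ⊔ TR.dg (TR.cor (s.im p E hE).P 1) 1)) (up1 l (s.im p E hE).T)
  ql : ∀ c' : ℝ, |c' - c| < d → c' ≤ lam c' ∧ lam c' ≤ 1

theorem Lev.nch {s : Sys S 3} {c d : ℝ} {lam eta : ℝ → ℝ} (H : Lev s c d lam eta) : NcH C3 s c d lam eta (s.F 0) where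
  yr := fun T p E hE u hu hu1 => H.rp.F_eq p E hE le_rfl zero_le_one hu hu1
  wn := fun T p E hE c' hc' => WN_of_HH (H.hR T p E hE c' hc') (H.hz T p E hE c' hc') (H.full T p E hE c' hc')
  ql := H.ql

variable {s : Sys S 3} {c d w w1 y' : ℝ} {lam eta y : ℝ → ℝ}

/-- UNSATURATED TOP COORDINATE IN THE BOX, general numbers -/
theorem rob_uns_raw (H : NcH C3 s c d lam eta y) (hd : 0 < d) (hη : HasDerivAt eta w c) (hw : 1 ≤ w)
    (hl : HasDerivAt lam w1 c) (hor : lam c < eta c ∨ (lam c = eta c ∧ w1 = w)) (hy : HasDerivAt y y' (eta c))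
    (h0 : 0 < eta c) (h1 : eta c < 1) {A b0 ε : ℝ} (hA : 0 ≤ A) (hb0 : 0 ≤ b0) (hb1 : b0 ≤ 1) (hε : 0 < ε) :
    ∃ e0 ε' : ℝ, 0 < e0 ∧ 0 < ε' ∧ ∀ (e : ℝ) (he : 0 < e), e ≤ e0 → ∀ (q lm et : ℕ → ℝ) (L : ℕ → Lab S)
      (b : Bx s q lm et L) (i0 i : ℕ) (ηn : ℝ) (hn : ηn ≤ b.bd.eta i0) (a : ℝ), |ηn - eta c| ≤ A * e → q i0 ≤ q i →
      q i0 + e ≤ 1 → lm i0 + e ≤ 1 → q i ≤ q i0 + e + ε' * e → lm i ≤ lm i0 + e + ε' * e → b0 - ε' ≤ a →
      Frm b.bd i0 he i (b.bd.zT i0 e he ηn hn) a →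
      ∀ u v : ℝ, 0 ≤ u → u ≤ v → v ≤ b0 →
        Slow.RobLe (dg (QS.mk (b.bd.zT i0 e he ηn hn)) v) (dg (QS.mk (b.bd.zT i0 e he ηn hn)) u ⊔
          (dg (QS.mk (b.bd.tT i0 e he)) 1 ⊔ dg (QS.mk (b.bd.yT i0 e he)) 1 ⊔ dg (QS.mk (b.bd.RT i0 e he)) 1))
          ((y' - 2) * (v - u) + ε) := by
  obtain ⟨e0, he0, g0⟩ := bx_all H hd hη hw hl hor hy h0 h1 (A := A) (b0 := b0) (ε := ε / 2) hA hb0 (by linarith)
  obtain ⟨K, hK⟩ : ∃ K : ℝ, K = |y' - 2| := ⟨_, rfl⟩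
  have hK0 : 0 ≤ K := by rw [hK]; exact abs_nonneg _
  have hK1 : y' - 2 ≤ K := by rw [hK]; exact le_abs_self _
  have hK2 : -(y' - 2) ≤ K := by rw [hK]; exact neg_le_abs _
  obtain ⟨ε', hε', hε2⟩ : ∃ ε' : ℝ, 0 < ε' ∧ (4 + K) * ε' ≤ ε / 2 :=
    ⟨(ε / 2) / (4 + K), by positivity, by rw [mul_div_cancel₀]; positivity⟩
  refine ⟨e0, ε', he0, hε', fun e he hee q lm et L b i0 i ηn hn a hA' hqq hq1 hlm1 hqi hli ha hf u v hu huv hv => ?_⟩
  intro W p E hE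
  have hv1 : v ≤ 1 := hv.trans hb1
  have hu1 : u ≤ 1 := huv.trans hv1
  rw [dg_mk _ hv1, dg_mk _ hu1, dg_mk _ le_rfl, dg_mk _ le_rfl, dg_mk _ le_rfl]
  obtain ⟨zt, hzt⟩ : ∃ zt, zt = b.bd.zT i0 e he ηn hn := ⟨_, rfl⟩
  have hV : ∀ k, b.bd.V i k ≤ b.bd.V i0 k := fun k => b.nest i0 i hqq k
  have e0' : restL E hE (p.map (TR.dg (b.bd.zT i0 e he ηn hn) u ⊔ (TR.dg (b.bd.tT i0 e he) 1 ⊔
      TR.dg (b.bd.yT i0 e he) 1 ⊔ TR.dg (b.bd.RT i0 e he) 1))) =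
      ph p E hE (TR.dg (b.bd.zT i0 e he ηn hn) u) ⊔ ph p E hE (Mb b.bd i0 he) := ph_sup _ _
  rw [e0']
  have e1' : restL E hE (p.map (TR.dg (b.bd.zT i0 e he ηn hn) v)) = ph p E hE (TR.dg (b.bd.zT i0 e he ηn hn) v) := rfl
  rw [e1', ← hzt]
  rw [← hzt] at hf
  rcases le_or_gt u a with hua | hua
  · obtain ⟨v', hv'⟩ : ∃ v' : ℝ, v' = min v a := ⟨_, rfl⟩
    have a1 : v' ≤ v := by rw [hv']; exact min_le_left _ _
    have a2 : v' ≤ a := by rw [hv']; exact min_le_right _ _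
    have a3 : u ≤ v' := by rw [hv']; exact le_min huv hua
    have a4 : v - v' ≤ ε' := by
      rw [hv']
      rcases le_total v a with hh | hh
      · rw [min_eq_left hh]; linarith
      · rw [min_eq_right hh]; linarith
    have f1 := g0 e he hee q lm et L b i0 ηn hn hA' W p E hE u v' hu a3 (a1.trans hv)
    rw [← hzt] at f1
    have f2 := box_uns (p := p) (E := E) (hE := hE) hV hq1 hlm1 hf a3 a2 (a1.trans hv1) f1
    have f3 : (2 * max (b.bd.q i - (b.bd.q i0 + e)) 0 + max (b.bd.lam i - (b.bd.lam i0 + e)) 0) / e ≤ 3 * ε' := by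
      rw [div_le_iff₀ he]
      have m0 : 0 ≤ ε' * e := by positivity
      have m1 : max (b.bd.q i - (b.bd.q i0 + e)) 0 ≤ ε' * e := max_le (by
        have : b.bd.q i ≤ b.bd.q i0 + e + ε' * e := hqi
        linarith) m0
      have m2 : max (b.bd.lam i - (b.bd.lam i0 + e)) 0 ≤ ε' * e := max_le (by
        have : b.bd.lam i ≤ b.bd.lam i0 + e + ε' * e := hli
        linarith) m0
      linarith
    have f4 : h (ph p E hE (TR.dg zt v)) (ph p E hE (TR.dg zt v')) ≤ v - v' := ph_dg _ a1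
    have f5 := h_triangle' (ph p E hE (TR.dg zt v)) (ph p E hE (TR.dg zt v'))
      (ph p E hE (TR.dg zt u) ⊔ ph p E hE (Mb b.bd i0 he))
    have f6 : (y' - 2) * (v' - u) ≤ (y' - 2) * (v - u) + K * ε' := by
      have b1 : -(y' - 2) * (v - v') ≤ K * (v - v') := mul_le_mul_of_nonneg_right hK2 (by linarith)
      have b2 : K * (v - v') ≤ K * ε' := mul_le_mul_of_nonneg_left a4 hK0
      linarith
    linarith
  · have f4 : h (ph p E hE (TR.dg zt v)) (ph p E hE (TR.dg zt u)) ≤ v - u := ph_dg _ huv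
    have f5 : v - u ≤ ε' := by linarith
    have f6 : h (ph p E hE (TR.dg zt v)) (ph p E hE (TR.dg zt u) ⊔ ph p E hE (Mb b.bd i0 he)) ≤ v - u :=
      (h_anti le_sup_left).trans f4
    have b1 : -(y' - 2) * (v - u) ≤ K * (v - u) := mul_le_mul_of_nonneg_right hK2 (by linarith)
    have b2 : K * (v - u) ≤ K * ε' := mul_le_mul_of_nonneg_left f5 hK0
    linarith

/-- UNSATURATED TOP COORDINATE IN THE BOX: base window `c`, the deepest window `c + σ e`, `max w1 w * σ = 1` -/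
theorem rob_uns (H : NcH C3 s c d lam eta y) (hd : 0 < d) (hη : HasDerivAt eta w c) (hw : 1 ≤ w)
    (hl : HasDerivAt lam w1 c) (hor : lam c < eta c ∨ (lam c = eta c ∧ w1 = w)) (hy : HasDerivAt y y' (eta c))
    (h0 : 0 < eta c) (h1 : eta c < 1) (hc : c < 1) (hlc : lam c < 1) {σ : ℝ} (hσ : max w1 w * σ = 1) {A ε : ℝ}
    (hA : 0 ≤ A) (hε : 0 < ε) :
    ∃ e0 : ℝ, 0 < e0 ∧ ∀ (e : ℝ) (he : 0 < e), e ≤ e0 → ∀ (q lm et : ℕ → ℝ) (L : ℕ → Lab S)
      (b : Bx s q lm et L) (i0 i : ℕ) (ηn : ℝ) (hn : ηn ≤ b.bd.eta i0), |ηn - eta c| ≤ A * e → ηn ≤ eta c →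
      q i0 = c → q i = c + σ * e → lm i0 = lam c → lm i = lam (c + σ * e) → et i = eta (c + σ * e) →
      Frm b.bd i0 he i (b.bd.zT i0 e he ηn hn) ((et i - ηn) / e) →
      ∀ u v : ℝ, 0 ≤ u → u ≤ v → v ≤ w * σ →
        Slow.RobLe (dg (QS.mk (b.bd.zT i0 e he ηn hn)) v) (dg (QS.mk (b.bd.zT i0 e he ηn hn)) u ⊔
          (dg (QS.mk (b.bd.tT i0 e he)) 1 ⊔ dg (QS.mk (b.bd.yT i0 e he)) 1 ⊔ dg (QS.mk (b.bd.RT i0 e he)) 1))
          ((y' - 2) * (v - u) + ε) := by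
  have hmax : 0 < max w1 w := lt_of_lt_of_le (by linarith) (le_max_right _ _)
  have hσ0 : 0 < σ := by
    by_contra hh
    push Not at hh
    have := mul_nonpos_of_nonneg_of_nonpos hmax.le hh
    linarith
  have hwσ : w * σ ≤ 1 := by rw [← hσ]; exact mul_le_mul_of_nonneg_right (le_max_right _ _) hσ0.le
  have hw1σ : w1 * σ ≤ 1 := by rw [← hσ]; exact mul_le_mul_of_nonneg_right (le_max_left _ _) hσ0.le
  have hσ1 : σ ≤ 1 := by
    have : 1 * σ ≤ w * σ := mul_le_mul_of_nonneg_right hw hσ0.le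
    linarith
  obtain ⟨e1, ε', he1, hε', g1⟩ := rob_uns_raw H hd hη hw hl hor hy h0 h1 (A := A) (b0 := w * σ) (ε := ε) hA
    (by positivity) hwσ hε
  obtain ⟨e2, he2, g2⟩ := incr_e hη hσ0.le hε'
  obtain ⟨e3, he3, g3⟩ := incr_e hl hσ0.le hε'
  refine ⟨min (min e1 (min e2 e3)) (min (1 - c) (1 - lam c)), lt_min (lt_min he1 (lt_min he2 he3))
    (lt_min (by linarith) (by linarith)), fun e he hee q lm et L b i0 i ηn hn hA' hn' q0 qi l0 li ei hf => ?_⟩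
  have k1 : e ≤ e1 := hee.trans ((min_le_left _ _).trans (min_le_left _ _))
  have k2 : e ≤ e2 := hee.trans ((min_le_left _ _).trans ((min_le_right _ _).trans (min_le_left _ _)))
  have k3 : e ≤ e3 := hee.trans ((min_le_left _ _).trans ((min_le_right _ _).trans (min_le_right _ _)))
  have k4 : e ≤ 1 - c := hee.trans ((min_le_right _ _).trans (min_le_left _ _))
  have k5 : e ≤ 1 - lam c := hee.trans ((min_le_right _ _).trans (min_le_right _ _))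
  have ho : |σ| ≤ σ := by rw [abs_of_pos hσ0]
  have m1 := abs_le.1 (g2 e he k2 σ ho)
  have m2 := abs_le.1 (g3 e he k3 σ ho)
  have m3 : σ * e ≤ e := mul_le_of_le_one_left he.le hσ1
  have m4 : 0 ≤ σ * e := by positivity
  have m5 : 0 ≤ ε' * e := by positivity
  have m6 : w1 * (σ * e) ≤ e := by
    rw [← mul_assoc]
    exact mul_le_of_le_one_left he.le hw1σ
  refine g1 e he k1 q lm et L b i0 i ηn hn _ hA' ?_ ?_ ?_ ?_ ?_ ?_ hf
  · rw [q0, qi]; linarith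
  · rw [q0]; linarith
  · rw [l0]; linarith
  · rw [q0, qi]; linarith
  · rw [l0, li]; linarith
  · rw [ei, le_div_iff₀ he, sub_mul]
    nlinarith [m1.1]

end

end Pool.Agent.Helper30.UNS
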