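import Pool.Agent.Helper30.UNS.Psi

/-! FROM ALL DIGITS TO THE DIGITS OF THE BOX: in the space over the label of the window `i0`, unsaturation of `z` given
all the digits of `M = (t, y, R)` implies unsaturation given the digits of `M` visible in the box, by the sheet and the
fullness over the label of one finer window `i`. -/

set_option autoImplicit false

namespace Pool.Agent.Helper30.UNS

open Finset Filter Topology Pool.Agent.Helper69.RK Pool.Agent.Helper31.EC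
open Pool.Agent.Helper80.HCI Pool.Agent.Helper60.CS Pool.Agent.Helper98.FR

noncomputable section

open Sp QS

variable {S : Sp}

theorem sub_dg (f g : TR S) (r : ℝ) : TR.dg (f - g) r ≤ TR.dg f r ⊔ TR.dg g r := by
  rw [sub_eq_add_neg]
  exact (TR.add_dg_le _ _ r).trans (sup_le_sup_left (TR.neg_dg_le _ _) _)

theorem lin3 (c0 c1 c2 a1 a2 : TR S) (r : ℝ) : TR.dg (c0 + c1 * a1 + c2 * a2) r ≤
    (TR.dg c0 r ⊔ TR.dg c1 r ⊔ TR.dg c2 r) ⊔ (TR.dg a1 r ⊔ TR.dg a2 r) := by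
  refine (TR.add_dg_le _ _ r).trans (sup_le ((TR.add_dg_le _ _ r).trans (sup_le ?_ ((TR.mul_dg_le _ _ r).trans
    (sup_le ?_ ?_)))) ((TR.mul_dg_le _ _ r).trans (sup_le ?_ ?_)))
  · exact (le_sup_left.trans le_sup_left).trans le_sup_left
  · exact (le_sup_right.trans le_sup_left).trans le_sup_left
  · exact le_sup_left.trans le_sup_right
  · exact le_sup_right.trans le_sup_left
  · exact le_sup_right.trans le_sup_right

theorem lin4 (c0 c1 c2 c3 a1 a2 a3 : TR S) (r : ℝ) : TR.dg (c0 + c1 * a1 + c2 * a2 + c3 * a3) r ≤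
    (TR.dg c0 r ⊔ TR.dg c1 r ⊔ TR.dg c2 r ⊔ TR.dg c3 r) ⊔ (TR.dg a1 r ⊔ TR.dg a2 r ⊔ TR.dg a3 r) := by
  refine (TR.add_dg_le _ _ r).trans (sup_le ((lin3 _ _ _ _ _ r).trans ?_) ((TR.mul_dg_le _ _ r).trans
    (sup_le ?_ ?_)))
  · exact sup_le_sup le_sup_left le_sup_left
  · exact le_sup_right.trans le_sup_left
  · exact le_sup_right.trans le_sup_right

section lat

variable {L : Type*} [PM L] {φ : S.L → L}

/-- a linear form whose coefficients are known -/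
theorem lin3_lit (hs : ∀ x y, φ (x ⊔ y) = φ x ⊔ φ y) (hm : ∀ {x y}, x ≤ y → φ x ≤ φ y) {c0 c1 c2 a1 a2 : TR S} {r : ℝ}
    (h0 : φ (TR.dg c0 r) = ⊥) (h1 : φ (TR.dg c1 r) = ⊥) (h2 : φ (TR.dg c2 r) = ⊥) :
    φ (TR.dg (c0 + c1 * a1 + c2 * a2) r) ≤ φ (TR.dg a1 r) ⊔ φ (TR.dg a2 r) := by
  refine (hm (lin3 _ _ _ _ _ r)).trans ?_
  rw [hs, hs, hs, hs, h0, h1, h2, bot_sup_eq, bot_sup_eq, bot_sup_eq]

theorem lin4_lit (hs : ∀ x y, φ (x ⊔ y) = φ x ⊔ φ y) (hm : ∀ {x y}, x ≤ y → φ x ≤ φ y)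
    {c0 c1 c2 c3 a1 a2 a3 : TR S} {r : ℝ}
    (h0 : φ (TR.dg c0 r) = ⊥) (h1 : φ (TR.dg c1 r) = ⊥) (h2 : φ (TR.dg c2 r) = ⊥) (h3 : φ (TR.dg c3 r) = ⊥) :
    φ (TR.dg (c0 + c1 * a1 + c2 * a2 + c3 * a3) r) ≤ φ (TR.dg a1 r) ⊔ φ (TR.dg a2 r) ⊔ φ (TR.dg a3 r) := by
  refine (hm (lin4 _ _ _ _ _ _ _ r)).trans ?_
  rw [hs, hs, hs, hs, hs, hs, h0, h1, h2, h3, bot_sup_eq, bot_sup_eq, bot_sup_eq, bot_sup_eq]

end lat

variable (B : BD S) (i0 : ℕ) {e : ℝ} (he : 0 < e)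

/-- in the space over the label of the base window -/
def cc (x : S.L) : (B.Sj i0 e he).L := chgL (B.V i0) e he x

variable {B i0 he}

theorem cc_mono {x y : S.L} (h : x ≤ y) : cc B i0 he x ≤ cc B i0 he y := chgL_mono _ _ _ h

theorem cc_sup (x y : S.L) : cc B i0 he (x ⊔ y) = cc B i0 he x ⊔ cc B i0 he y := chgL_sup _ _ _ _ _

theorem cc_lit {f : TR S} (hf : Lt (B.V i0) f) (r : ℝ) : cc B i0 he (TR.dg f r) = ⊥ := hf.chg_bot e he r

theorem cc_dg (f : TR S) (r : ℝ) : cc B i0 he (TR.dg f r) = TR.dg (trc (B.V i0) e he f) (r / e) := by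
  rw [trc_dg, mul_div_cancel₀ _ he.ne']
  rfl

/-- a function and its difference with a known function -/
theorem cc_sub {f g : TR S} (hg : Lt (B.V i0) g) (r : ℝ) : cc B i0 he (TR.dg (f - g) r) = cc B i0 he (TR.dg f r) := by
  have h0 := cc_lit (he := he) hg r
  apply le_antisymm
  · refine (cc_mono (sub_dg f g r)).trans ?_
    rw [cc_sup, h0, sup_bot_eq]
  · have e1 : f = (f - g) + g := (sub_add_cancel f g).symm
    have h1 : TR.dg f r ≤ TR.dg (f - g) r ⊔ TR.dg g r := by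
      conv_lhs => rw [e1]
      exact TR.add_dg_le _ _ r
    refine (cc_mono h1).trans ?_
    rw [cc_sup, h0, sup_bot_eq]

theorem tT_cc (u : ℝ) : TR.dg (B.tT i0 e he) u = cc B i0 he (TR.dg B.t (B.q i0 + e * u)) :=
  (B.tT_dg u).trans (cc_sub (B.lt i0) _)

theorem yT_cc (u : ℝ) : TR.dg (B.yT i0 e he) u = cc B i0 he (TR.dg B.y (B.q i0 + e * u)) :=
  (B.yT_dg u).trans (cc_sub (B.ly i0) _)

theorem RT_cc (u : ℝ) : TR.dg (B.RT i0 e he) u = cc B i0 he (TR.dg (B.Rr i0) (B.lam i0 + e * u)) := B.RT_dg u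

theorem Rr_le (r : ℝ) : cc B i0 he (TR.dg (B.Rr i0) r) ≤ cc B i0 he (TR.dg B.R r) ⊔ (cc B i0 he (TR.dg B.t r) ⊔
    cc B i0 he (TR.dg B.y r)) := by
  refine (cc_mono (sub_dg _ _ r)).trans ?_
  rw [cc_sup]
  exact sup_le_sup_left (lin3_lit cc_sup cc_mono (cc_lit (B.lr i0 0) r) (cc_lit (B.lr i0 1) r) (cc_lit (B.lr i0 2) r)) _

theorem R_le (r : ℝ) : cc B i0 he (TR.dg B.R r) ≤ cc B i0 he (TR.dg (B.Rr i0) r) ⊔ (cc B i0 he (TR.dg B.t r) ⊔
    cc B i0 he (TR.dg B.y r)) := by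
  have e1 : B.R = B.Rr i0 + (B.r i0 0 + B.r i0 1 * B.t + B.r i0 2 * B.y) := (sub_add_cancel _ _).symm
  have h1 : TR.dg B.R r ≤ TR.dg (B.Rr i0) r ⊔ TR.dg (B.r i0 0 + B.r i0 1 * B.t + B.r i0 2 * B.y) r := by
    conv_lhs => rw [e1]
    exact TR.add_dg_le _ _ r
  refine (cc_mono h1).trans ?_
  rw [cc_sup]
  exact sup_le_sup_left (lin3_lit cc_sup cc_mono (cc_lit (B.lr i0 0) r) (cc_lit (B.lr i0 1) r) (cc_lit (B.lr i0 2) r)) _

theorem Zr_le (r : ℝ) : cc B i0 he (TR.dg (B.Zr i0) r) ≤ cc B i0 he (TR.dg B.z r) ⊔ (cc B i0 he (TR.dg B.t r) ⊔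
    cc B i0 he (TR.dg B.y r) ⊔ cc B i0 he (TR.dg B.R r)) := by
  refine (cc_mono (sub_dg _ _ r)).trans ?_
  rw [cc_sup]
  exact sup_le_sup_left (lin4_lit cc_sup cc_mono (cc_lit (B.lc i0 0) r) (cc_lit (B.lc i0 1) r) (cc_lit (B.lc i0 2) r)
    (cc_lit (B.lc i0 3) r)) _

theorem z_le (r : ℝ) : cc B i0 he (TR.dg B.z r) ≤ cc B i0 he (TR.dg (B.Zr i0) r) ⊔ (cc B i0 he (TR.dg B.t r) ⊔
    cc B i0 he (TR.dg B.y r) ⊔ cc B i0 he (TR.dg B.R r)) := by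
  have e1 : B.z = B.Zr i0 + (B.c i0 0 + B.c i0 1 * B.t + B.c i0 2 * B.y + B.c i0 3 * B.R) :=
    (sub_add_cancel _ _).symm
  have h1 : TR.dg B.z r ≤ TR.dg (B.Zr i0) r ⊔
      TR.dg (B.c i0 0 + B.c i0 1 * B.t + B.c i0 2 * B.y + B.c i0 3 * B.R) r := by
    conv_lhs => rw [e1]
    exact TR.add_dg_le _ _ r
  refine (cc_mono h1).trans ?_
  rw [cc_sup]
  exact sup_le_sup_left (lin4_lit cc_sup cc_mono (cc_lit (B.lc i0 0) r) (cc_lit (B.lc i0 1) r) (cc_lit (B.lc i0 2) r)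
    (cc_lit (B.lc i0 3) r)) _

variable (B i0) (he)

/-- all the digits of `M = (t, y, R)` -/
def Ma : (B.Sj i0 e he).L := cc B i0 he (TR.dg B.t 1 ⊔ TR.dg B.y 1 ⊔ TR.dg B.R 1)

/-- the digits of `M` visible in the box -/
def Mb : (B.Sj i0 e he).L := TR.dg (B.tT i0 e he) 1 ⊔ TR.dg (B.yT i0 e he) 1 ⊔ TR.dg (B.RT i0 e he) 1

variable {B i0 he}

theorem Ma_eq : Ma B i0 he = cc B i0 he (TR.dg B.t 1) ⊔ cc B i0 he (TR.dg B.y 1) ⊔ cc B i0 he (TR.dg B.R 1) := by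
  unfold Ma
  rw [cc_sup, cc_sup]

theorem Mb_le (h1 : B.q i0 + e ≤ 1) (h2 : B.lam i0 + e ≤ 1) : Mb B i0 he ≤ Ma B i0 he := by
  rw [Ma_eq]
  unfold Mb
  rw [tT_cc, yT_cc, RT_cc, mul_one]
  have a1 : cc B i0 he (TR.dg B.t (B.q i0 + e)) ≤ cc B i0 he (TR.dg B.t 1) := cc_mono (TR.dg_mono _ h1)
  have a2 : cc B i0 he (TR.dg B.y (B.q i0 + e)) ≤ cc B i0 he (TR.dg B.y 1) := cc_mono (TR.dg_mono _ h1)
  refine sup_le (sup_le_sup a1 a2 |>.trans le_sup_left) ((Rr_le _).trans ?_)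
  exact sup_le ((cc_mono (TR.dg_mono _ h2)).trans le_sup_right) ((sup_le_sup (cc_mono (TR.dg_mono _ h2))
    (cc_mono (TR.dg_mono _ h2))).trans le_sup_left)

section ev

variable {W : Sp} {p : Pj W (B.Sj i0 e he)} {E : ∀ k, (W.F k).Ω → Prop} {hE : 0 < ul (W.pr E)}

theorem ph_cc (f : TR S) {r r' : ℝ} (hr : r ≤ r') :
    h (ph p E hE (cc B i0 he (TR.dg f r'))) (ph p E hE (cc B i0 he (TR.dg f r))) ≤ (r' - r) / e := by
  rw [cc_dg, cc_dg, sub_div]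
  exact ph_dg _ (div_le_div_of_nonneg_right hr he.le)

/-- digits of `M` beyond the visible ones -/
theorem Ma_Mb (h1 : B.q i0 + e ≤ 1) (h2 : B.lam i0 + e ≤ 1) : h (ph p E hE (Ma B i0 he)) (ph p E hE (Mb B i0 he)) ≤
    (1 - (B.q i0 + e)) / e + (1 - (B.q i0 + e)) / e + (1 - (B.lam i0 + e)) / e := by
  rw [Ma_eq, ph_sup, ph_sup, h_chain, h_chain]
  have a1 : ph p E hE (cc B i0 he (TR.dg B.t (B.q i0 + e))) ≤ ph p E hE (Mb B i0 he) := by
    apply ph_mono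
    unfold Mb
    rw [tT_cc, mul_one]
    exact le_sup_left.trans le_sup_left
  have a2 : ph p E hE (cc B i0 he (TR.dg B.y (B.q i0 + e))) ≤ ph p E hE (Mb B i0 he) := by
    apply ph_mono
    unfold Mb
    rw [yT_cc, mul_one]
    exact le_sup_right.trans le_sup_left
  have a3 : ph p E hE (cc B i0 he (TR.dg (B.Rr i0) (B.lam i0 + e))) ≤ ph p E hE (Mb B i0 he) := by
    apply ph_mono
    unfold Mb
    rw [RT_cc, mul_one]
    exact le_sup_right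
  have b1 := (h_anti a1).trans (ph_cc (p := p) (E := E) (hE := hE) B.t h1)
  have b2 : h (ph p E hE (cc B i0 he (TR.dg B.y 1))) (ph p E hE (cc B i0 he (TR.dg B.t 1)) ⊔ ph p E hE (Mb B i0 he)) ≤
      (1 - (B.q i0 + e)) / e :=
    (h_anti (a2.trans le_sup_right)).trans (ph_cc (p := p) (E := E) (hE := hE) B.y h1)
  have b3 : h (ph p E hE (cc B i0 he (TR.dg B.R 1))) (ph p E hE (cc B i0 he (TR.dg B.t 1)) ⊔
      ph p E hE (cc B i0 he (TR.dg B.y 1)) ⊔ ph p E hE (Mb B i0 he)) ≤ (1 - (B.lam i0 + e)) / e := by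
    refine (h_anti ?_).trans (ph_cc (p := p) (E := E) (hE := hE) B.R h2)
    refine (ph_mono (R_le _)).trans ?_
    rw [ph_sup, ph_sup]
    have c1 : ph p E hE (cc B i0 he (TR.dg B.t (B.lam i0 + e))) ≤ ph p E hE (cc B i0 he (TR.dg B.t 1)) :=
      ph_mono (cc_mono (TR.dg_mono _ h2))
    have c2 : ph p E hE (cc B i0 he (TR.dg B.y (B.lam i0 + e))) ≤ ph p E hE (cc B i0 he (TR.dg B.y 1)) :=
      ph_mono (cc_mono (TR.dg_mono _ h2))
    exact sup_le (a3.trans le_sup_right) ((sup_le_sup c1 c2).trans le_sup_left)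
  linarith

end ev

/-! ### over the label of a finer window -/

variable {i : ℕ}

variable (B i0 he i) in
/-- frames of the window `i` in the box of `i0`: coefficients literally known to the label of `i`; `z` to the level `a` -/
structure Frm (zt : TR (B.Sj i0 e he)) (a : ℝ) : Prop where
  R : ∃ g0 g1 g2 : TR (B.Sj i0 e he), Lt (zc (B.V i0) he (B.V i)) g0 ∧ Lt (zc (B.V i0) he (B.V i)) g1 ∧
    Lt (zc (B.V i0) he (B.V i)) g2 ∧ TR.Ag ((B.lam i - B.lam i0) / e) (B.RT i0 e he)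
      (g0 + g1 * B.tT i0 e he + g2 * B.yT i0 e he)
  z : ∃ g0 g1 g2 g3 : TR (B.Sj i0 e he), Lt (zc (B.V i0) he (B.V i)) g0 ∧ Lt (zc (B.V i0) he (B.V i)) g1 ∧
    Lt (zc (B.V i0) he (B.V i)) g2 ∧ Lt (zc (B.V i0) he (B.V i)) g3 ∧ TR.Ag a zt
      (g0 + g1 * B.tT i0 e he + g2 * B.yT i0 e he + g3 * B.RT i0 e he)

section fine

variable {W : Sp} {p : Pj W (B.Sj i0 e he)} {E : ∀ k, (W.F k).Ω → Prop} {hE : 0 < ul (W.pr E)}

theorem ps_lit0 {g : TR (B.Sj i0 e he)} (hg : Lt (zc (B.V i0) he (B.V i)) g) (r : ℝ) :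
    ps (zc (B.V i0) he (B.V i)) p E hE (TR.dg g r) = ⊥ := ps_bot (hg.chg_bot 1 one_pos r)

theorem ps_lit (hV : ∀ k, B.V i k ≤ B.V i0 k) {f : TR S} (hf : Lt (B.V i) f) (r : ℝ) :
    ps (zc (B.V i0) he (B.V i)) p E hE (cc B i0 he (TR.dg f r)) = ⊥ :=
  ps_bot (chg_chg_bot (fun k ω ω' _ _ _ hh => hV k hh) he (hf.chg_bot 1 one_pos r))

theorem ps_t (hV : ∀ k, B.V i k ≤ B.V i0 k) {r : ℝ} (hr : r ≤ B.q i) :
    ps (zc (B.V i0) he (B.V i)) p E hE (cc B i0 he (TR.dg B.t r)) = ⊥ := by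
  have h1 := dg_eq_of_sub_mem (B.ht i) hr (hr.trans (B.q1 i))
  rw [dg_mk _ (hr.trans (B.q1 i)), dg_mk _ (hr.trans (B.q1 i))] at h1
  rw [h1]
  exact ps_lit hV (B.lt i) r

theorem ps_y (hV : ∀ k, B.V i k ≤ B.V i0 k) {r : ℝ} (hr : r ≤ B.q i) :
    ps (zc (B.V i0) he (B.V i)) p E hE (cc B i0 he (TR.dg B.y r)) = ⊥ := by
  have h1 := dg_eq_of_sub_mem (B.hy i) hr (hr.trans (B.q1 i))
  rw [dg_mk _ (hr.trans (B.q1 i)), dg_mk _ (hr.trans (B.q1 i))] at h1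
  rw [h1]
  exact ps_lit hV (B.ly i) r

theorem ps_R (hV : ∀ k, B.V i k ≤ B.V i0 k) :
    ps (zc (B.V i0) he (B.V i)) p E hE (cc B i0 he (TR.dg B.R (B.lam i))) ≤
      ps (zc (B.V i0) he (B.V i)) p E hE (cc B i0 he (TR.dg B.t 1)) ⊔
        ps (zc (B.V i0) he (B.V i)) p E hE (cc B i0 he (TR.dg B.y 1)) := by
  have h1 := dg_eq_of_sub_mem (B.hr i) le_rfl (B.lam1 i)
  rw [← map_mul, ← map_mul, ← map_add, ← map_add, dg_mk _ (B.lam1 i), dg_mk _ (B.lam1 i)] at h1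
  rw [h1]
  refine (lin3_lit (φ := fun x => ps (zc (B.V i0) he (B.V i)) p E hE (cc B i0 he x)) ?_ ?_ (ps_lit hV (B.lr i 0) _)
    (ps_lit hV (B.lr i 1) _) (ps_lit hV (B.lr i 2) _)).trans ?_
  · intro x y
    show ps _ p E hE (cc B i0 he (x ⊔ y)) = _
    rw [cc_sup, ps_sup]
  · intro x y hxy
    exact ps_mono (cc_mono hxy)
  · exact sup_le_sup (ps_mono (cc_mono (TR.dg_mono _ (B.lam1 i)))) (ps_mono (cc_mono (TR.dg_mono _ (B.lam1 i))))

/-- the size of `M` over the finer label, upper bound -/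
theorem ps_Ma_le (hV : ∀ k, B.V i k ≤ B.V i0 k) : H (ps (zc (B.V i0) he (B.V i)) p E hE (Ma B i0 he)) ≤
    ((1 - B.q i) + (1 - B.q i) + (1 - B.lam i)) / e := by
  rw [Ma_eq, ps_sup, ps_sup, H_chain, H_chain]
  have a1 : H (ps (zc (B.V i0) he (B.V i)) p E hE (cc B i0 he (TR.dg B.t 1))) ≤ (1 - B.q i) / e := by
    have b1 := (ps_le (V := zc (B.V i0) he (B.V i)) (p := p) (E := E) (hE := hE) (cc B i0 he (TR.dg B.t 1))
      (cc B i0 he (TR.dg B.t (B.q i)))).trans (ph_cc B.t (B.q1 i))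
    rw [ps_t hV le_rfl, h_bot] at b1
    exact b1
  have a2 : h (ps (zc (B.V i0) he (B.V i)) p E hE (cc B i0 he (TR.dg B.y 1)))
      (ps (zc (B.V i0) he (B.V i)) p E hE (cc B i0 he (TR.dg B.t 1))) ≤ (1 - B.q i) / e := by
    have b1 := (ps_le (V := zc (B.V i0) he (B.V i)) (p := p) (E := E) (hE := hE) (cc B i0 he (TR.dg B.y 1))
      (cc B i0 he (TR.dg B.y (B.q i)))).trans (ph_cc B.y (B.q1 i))
    rw [ps_y hV le_rfl] at b1
    exact (h_anti bot_le).trans b1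
  have a3 : h (ps (zc (B.V i0) he (B.V i)) p E hE (cc B i0 he (TR.dg B.R 1)))
      (ps (zc (B.V i0) he (B.V i)) p E hE (cc B i0 he (TR.dg B.t 1)) ⊔
        ps (zc (B.V i0) he (B.V i)) p E hE (cc B i0 he (TR.dg B.y 1))) ≤ (1 - B.lam i) / e :=
    (h_anti (ps_R hV)).trans ((ps_le _ _).trans (ph_cc B.R (B.lam1 i)))
  rw [add_div, add_div]
  linarith

/-- `M` is full over the finer label -/
theorem ps_Ma_ge (hV : ∀ k, B.V i k ≤ B.V i0 k) : ((1 - B.q i) + (1 - B.q i) + (1 - B.lam i)) / e ≤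
    H (ps (zc (B.V i0) he (B.V i)) p E hE (Ma B i0 he)) := by
  apply ps_full
  · have e1 : H (chgL (zc (B.V i0) he (B.V i)) 1 one_pos (Ma B i0 he)) =
        H (chgL (B.V i) 1 one_pos (TR.dg B.t 1 ⊔ TR.dg B.y 1 ⊔ TR.dg B.R 1)) / e :=
      chg_chg_H (fun k ω ω' _ _ _ hh => hV k hh) he _
    rw [e1]
    have h1 := B.full i
    rw [qc_dg, qc_dg, qc_dg, dg_mk _ le_rfl, dg_mk _ le_rfl, dg_mk _ le_rfl] at h1
    rw [chgL_sup, chgL_sup]
    exact div_le_div_of_nonneg_right h1 he.le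
  · intro E' hE'
    exact ps_Ma_le hV

/-- the size of the visible digits of `M` over the finer label -/
theorem ps_Mb_le (hV : ∀ k, B.V i k ≤ B.V i0 k) {zt : TR (B.Sj i0 e he)} {a : ℝ} (hf : Frm B i0 he i zt a) :
    H (ps (zc (B.V i0) he (B.V i)) p E hE (Mb B i0 he)) ≤
      max (B.q i0 + e - B.q i) 0 / e + max (B.q i0 + e - B.q i) 0 / e + max (B.lam i0 + e - B.lam i) 0 / e := by
  obtain ⟨g0, g1, g2, l0, l1, l2, hg⟩ := hf.R
  have e0 : Mb B i0 he = TR.dg (B.tT i0 e he) 1 ⊔ TR.dg (B.yT i0 e he) 1 ⊔ TR.dg (B.RT i0 e he) 1 := rfl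
  rw [e0, ps_sup, ps_sup, H_chain, H_chain]
  have m0 : ∀ a : ℝ, 0 ≤ max a 0 / e := fun a => div_nonneg (le_max_right _ _) he.le
  have key : ∀ f : TR S, (∀ {r : ℝ}, r ≤ B.q i → ps (zc (B.V i0) he (B.V i)) p E hE (cc B i0 he (TR.dg f r)) = ⊥) →
      H (ps (zc (B.V i0) he (B.V i)) p E hE (cc B i0 he (TR.dg f (B.q i0 + e)))) ≤ max (B.q i0 + e - B.q i) 0 / e := by
    intro f hf
    rcases le_total (B.q i0 + e) (B.q i) with hh | hh
    · rw [hf hh, H_bot]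
      exact m0 _
    · have b1 := (ps_le (V := zc (B.V i0) he (B.V i)) (p := p) (E := E) (hE := hE) (cc B i0 he (TR.dg f (B.q i0 + e)))
        (cc B i0 he (TR.dg f (B.q i)))).trans (ph_cc f hh)
      rw [hf le_rfl, h_bot] at b1
      exact b1.trans (div_le_div_of_nonneg_right (le_max_left _ _) he.le)
  have a1 : H (ps (zc (B.V i0) he (B.V i)) p E hE (TR.dg (B.tT i0 e he) 1)) ≤ max (B.q i0 + e - B.q i) 0 / e := by
    rw [tT_cc, mul_one]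
    exact key B.t (fun hr => ps_t hV hr)
  have a2 : h (ps (zc (B.V i0) he (B.V i)) p E hE (TR.dg (B.yT i0 e he) 1))
      (ps (zc (B.V i0) he (B.V i)) p E hE (TR.dg (B.tT i0 e he) 1)) ≤ max (B.q i0 + e - B.q i) 0 / e := by
    refine (h_le_H _ _).trans ?_
    rw [yT_cc, mul_one]
    exact key B.y (fun hr => ps_y hV hr)
  obtain ⟨ρ, hρ⟩ : ∃ ρ : ℝ, ρ = min ((B.lam i - B.lam i0) / e) 1 := ⟨_, rfl⟩
  have hρ1 : ρ ≤ 1 := by rw [hρ]; exact min_le_right _ _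
  have hρ2 : ρ ≤ (B.lam i - B.lam i0) / e := by rw [hρ]; exact min_le_left _ _
  have a3 : h (ps (zc (B.V i0) he (B.V i)) p E hE (TR.dg (B.RT i0 e he) 1))
      (ps (zc (B.V i0) he (B.V i)) p E hE (TR.dg (B.tT i0 e he) 1) ⊔
        ps (zc (B.V i0) he (B.V i)) p E hE (TR.dg (B.yT i0 e he) 1)) ≤ 1 - ρ := by
    refine (h_anti ?_).trans ((ps_le (TR.dg (B.RT i0 e he) 1) (TR.dg (B.RT i0 e he) ρ)).trans (ph_dg _ hρ1))
    rw [hg.dg_eq hρ2]
    refine (lin3_lit (φ := fun x => ps (zc (B.V i0) he (B.V i)) p E hE x) ps_sup ps_mono (ps_lit0 l0 _)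
      (ps_lit0 l1 _) (ps_lit0 l2 _)).trans ?_
    exact sup_le_sup (ps_mono (TR.dg_mono _ hρ1)) (ps_mono (TR.dg_mono _ hρ1))
  have a4 : 1 - ρ ≤ max (B.lam i0 + e - B.lam i) 0 / e := by
    rw [hρ]
    rcases le_total ((B.lam i - B.lam i0) / e) 1 with hh | hh
    · rw [min_eq_left hh, le_div_iff₀ he, sub_mul, div_mul_cancel₀ _ he.ne', one_mul]
      exact (le_of_eq (by ring)).trans (le_max_left _ _)
    · rw [min_eq_right hh, sub_self]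
      exact m0 _
  linarith

/-- `z` in the box is known to the finer label and the visible digits -/
theorem ps_z {zt : TR (B.Sj i0 e he)} {a : ℝ} (hf : Frm B i0 he i zt a) {v : ℝ} (hv : v ≤ a) (hv1 : v ≤ 1) :
    ps (zc (B.V i0) he (B.V i)) p E hE (TR.dg zt v) ≤ ps (zc (B.V i0) he (B.V i)) p E hE (Mb B i0 he) := by
  obtain ⟨g0, g1, g2, g3, l0, l1, l2, l3, hg⟩ := hf.z
  rw [hg.dg_eq hv]
  refine (lin4_lit (φ := fun x => ps (zc (B.V i0) he (B.V i)) p E hE x) ps_sup ps_mono (ps_lit0 l0 _)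
    (ps_lit0 l1 _) (ps_lit0 l2 _) (ps_lit0 l3 _)).trans ?_
  have e0 : Mb B i0 he = TR.dg (B.tT i0 e he) 1 ⊔ TR.dg (B.yT i0 e he) 1 ⊔ TR.dg (B.RT i0 e he) 1 := rfl
  rw [e0, ps_sup, ps_sup]
  exact sup_le_sup (sup_le_sup (ps_mono (TR.dg_mono _ hv1)) (ps_mono (TR.dg_mono _ hv1)))
    (ps_mono (TR.dg_mono _ hv1))

/-- FROM ALL DIGITS TO THE VISIBLE ONES -/
theorem box_uns (hV : ∀ k, B.V i k ≤ B.V i0 k) (h1 : B.q i0 + e ≤ 1) (h2 : B.lam i0 + e ≤ 1)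
    {zt : TR (B.Sj i0 e he)} {a : ℝ} (hf : Frm B i0 he i zt a) {u v θ : ℝ} (huv : u ≤ v) (hv : v ≤ a) (hv1 : v ≤ 1)
    (h5 : h (ph p E hE (TR.dg zt v)) (ph p E hE (TR.dg zt u) ⊔ ph p E hE (Ma B i0 he)) ≤ θ) :
    h (ph p E hE (TR.dg zt v)) (ph p E hE (TR.dg zt u) ⊔ ph p E hE (Mb B i0 he)) ≤
      θ + (2 * max (B.q i - (B.q i0 + e)) 0 + max (B.lam i - (B.lam i0 + e)) 0) / e := by
  have key := two_lat (ψ := fun x => chgL (Zi (zc (B.V i0) he (B.V i)) p E) 1 one_pos x) (h_chg_le _)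
    (fun x y => chgL_sup _ _ _ _ _) (M := ph p E hE (Ma B i0 he)) (J := ph p E hE (Mb B i0 he))
    (zs := ph p E hE (TR.dg zt v)) (za := ph p E hE (TR.dg zt u)) (ps_z hf hv hv1) (ph_mono (TR.dg_mono _ huv))
    (ph_mono (Mb_le h1 h2)) (ps_Ma_ge hV) (ps_Mb_le hV hf) (Ma_Mb h1 h2) h5
  refine key.trans (le_of_eq ?_)
  have m1 : max (B.q i0 + e - B.q i) 0 = max (B.q i - (B.q i0 + e)) 0 + (B.q i0 + e - B.q i) := by
    rcases le_total (B.q i0 + e - B.q i) 0 with hh | hh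
    · rw [max_eq_right hh, max_eq_left (by linarith)]
      ring
    · rw [max_eq_left hh, max_eq_right (by linarith)]
      ring
  have m2 : max (B.lam i0 + e - B.lam i) 0 = max (B.lam i - (B.lam i0 + e)) 0 + (B.lam i0 + e - B.lam i) := by
    rcases le_total (B.lam i0 + e - B.lam i) 0 with hh | hh
    · rw [max_eq_right hh, max_eq_left (by linarith)]
      ring
    · rw [max_eq_left hh, max_eq_right (by linarith)]
      ring
  rw [m1, m2]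
  ring

end fine

end

end Pool.Agent.Helper30.UNS
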