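import Pool.Agent.Helper30.UNS.Bxu

/-! UNSATURATED TOP COORDINATE in the box of a typical window: level 1 => the space over the label of the window. -/

set_option autoImplicit false

namespace Pool.Agent.Helper30.UNS

open Finset Filter Topology Pool.Agent.Helper69.RK Pool.Agent.Helper31.EC Pool.Agent.Helper31.EC.Sp
open Pool.Agent.Helper40.EL Pool.Agent.Helper52.KP Pool.Agent.Helper42.NS Pool.Agent.Helper91.GR
open Pool.Agent.Helper80.HCI Pool.Agent.Helper60.CS Pool.Agent.Helper98.FR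

noncomputable section

open QS

/-- the coordinates of case B: `t`, `y = P_0`, `R = P_1`, `z = P_2` -/
def C3 : Cd 3 1 where
  sel := ![0, 1]
  R := 1
  z := 2
  sel0 := rfl
  inj := by
    intro a b hab
    fin_cases a <;> fin_cases b <;> simp_all
  hR := by decide
  hz := by decide
  hRz := by decide
  cov := by decide

variable {S : Sp}

/-- the frames of helper98 -/
theorem Frm.of_ok {B : BD S} {i0 i : ℕ} {e b ηn δ : ℝ} {he : 0 < e} (ok : B.Ok i0 i b ηn δ) :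
    Frm B i0 he i (B.zT i0 e he ηn ok.he) ((B.eta i - ηn) / e) where
  R := by
    have l : ∀ a, Lt (zc (B.V i0) he (B.V i)) (B.rT i0 e he ok a) := fun a => by
      filter_upwards [B.rT_lt ok a (e := e) (he := he)] with k hk ω ω' h1 h2 h3 h4
      exact hk ω ω' h1 h2 h3 h4.2
    exact ⟨_, _, _, l 0, l 1, l 2, B.R_frame ok⟩
  z := by
    have l : ∀ a, Lt (zc (B.V i0) he (B.V i)) (B.cT i0 e he ok a) := fun a => by
      filter_upwards [B.cT_lt ok a (e := e) (he := he)] with k hk ω ω' h1 h2 h3 h4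
      exact hk ω ω' h1 h2 h3 h4.2
    exact ⟨_, _, _, _, l 0, l 1, l 2, l 3, B.z_frame ok⟩

/-- digits of `z` and digits of the residual are the same thing over all of `M` -/
theorem all_dig {B : BD S} {i0 : ℕ} {e : ℝ} {he : 0 < e} {W : Sp} {p : Pj W (B.Sj i0 e he)}
    {E : ∀ k, (W.F k).Ω → Prop} {hE : 0 < ul (W.pr E)} {r r' : ℝ} (hr : r ≤ 1) (hr' : r' ≤ 1) :
    h (ph p E hE (cc B i0 he (TR.dg (B.Zr i0) r'))) (ph p E hE (cc B i0 he (TR.dg (B.Zr i0) r)) ⊔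
      ph p E hE (Ma B i0 he)) ≤
    h (ph p E hE (cc B i0 he (TR.dg B.z r'))) (ph p E hE (cc B i0 he (TR.dg B.z r)) ⊔ ph p E hE (Ma B i0 he)) := by
  have hM : ∀ {r : ℝ}, r ≤ 1 → cc B i0 he (TR.dg B.t r) ⊔ cc B i0 he (TR.dg B.y r) ⊔ cc B i0 he (TR.dg B.R r) ≤
      Ma B i0 he := fun {r} hr => by
    rw [Ma_eq]
    exact sup_le_sup (sup_le_sup (cc_mono (TR.dg_mono _ hr)) (cc_mono (TR.dg_mono _ hr))) (cc_mono (TR.dg_mono _ hr))
  have a1 : ph p E hE (cc B i0 he (TR.dg (B.Zr i0) r')) ≤ ph p E hE (cc B i0 he (TR.dg B.z r')) ⊔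
      ph p E hE (Ma B i0 he) := by
    rw [← ph_sup]
    exact ph_mono ((Zr_le r').trans (sup_le_sup_left (hM hr') _))
  have a2 : ph p E hE (cc B i0 he (TR.dg B.z r)) ≤ ph p E hE (cc B i0 he (TR.dg (B.Zr i0) r)) ⊔
      ph p E hE (Ma B i0 he) := by
    rw [← ph_sup]
    exact ph_mono ((z_le r).trans (sup_le_sup_left (hM hr) _))
  refine (h_anti (sup_le a2 le_sup_right)).trans ((h_mono a1).trans (le_of_eq ?_))
  exact h_sup_right_of_le le_sup_right

variable {s : Sys S 3} {q lm et : ℕ → ℝ} {L : ℕ → Lab S} (b : Bx s q lm et L)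

theorem map_cor (i : Fin 3) (r : ℝ) : (famPj b.M).map (TR.dg (pc s i.succ) r) = TR.dg (TR.cor b.sy.P i) r :=
  (Pj.tr_dg (famPj b.M) (TR.cor s.P i) r).symm

theorem map_T : (famPj b.M).map s.T = TR.dg b.bd.t 1 := by
  rw [← T_eq]
  exact (Pj.tr_dg (famPj b.M) (TR.cor s.t 0) 1).symm

theorem fl_dg (r : ℝ) : (C3.fl s).dg r = TR.dg (pc s (0 : Fin 3).succ) r := by
  have h1 : C3.fl s = TR.vec (fun _ : Fin 1 => pc s (0 : Fin 3).succ) := by
    unfold Cd.fl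
    congr 1
    funext a
    rw [Subsingleton.elim a 0]
    rfl
  rw [h1]
  rfl

theorem map_M (r : ℝ) : (famPj b.M).map (C3.M s 1 ⊔ (TR.dg (pc s C3.z.succ) r ⊔ s.T)) =
    TR.dg b.bd.z r ⊔ (TR.dg b.bd.t 1 ⊔ TR.dg b.bd.y 1 ⊔ TR.dg b.bd.R 1) := by
  have h1 : C3.M s 1 = TR.dg (pc s (0 : Fin 3).succ) 1 ⊔ TR.dg (pc s (1 : Fin 3).succ) 1 := by
    unfold Cd.M
    rw [fl_dg]
    rfl
  have h2 : (C3.z : Fin 3) = 2 := rfl
  rw [h1, h2, Pj.map_sup, Pj.map_sup, Pj.map_sup, map_cor, map_cor, map_cor, map_T]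
  show TR.dg b.bd.y 1 ⊔ TR.dg b.bd.R 1 ⊔ (TR.dg b.bd.z r ⊔ TR.dg b.bd.t 1) = _
  apply le_antisymm
  · exact sup_le (sup_le ((le_sup_right.trans le_sup_left).trans le_sup_right) (le_sup_right.trans le_sup_right))
      (sup_le le_sup_left ((le_sup_left.trans le_sup_left).trans le_sup_right))
  · exact sup_le (le_sup_left.trans le_sup_right) (sup_le (sup_le (le_sup_right.trans le_sup_right)
      (le_sup_left.trans le_sup_left)) (le_sup_right.trans le_sup_left))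

variable {c d w w1 y' : ℝ} {lam eta y : ℝ → ℝ}

/-- UNSATURATED over all digits of `M`, in the box coordinate `z` -/
theorem bx_all (H : NcH C3 s c d lam eta y) (hd : 0 < d) (hη : HasDerivAt eta w c) (hw : 1 ≤ w)
    (hl : HasDerivAt lam w1 c) (hor : lam c < eta c ∨ (lam c = eta c ∧ w1 = w)) (hy : HasDerivAt y y' (eta c))
    (h0 : 0 < eta c) (h1 : eta c < 1) {A b0 ε : ℝ} (hA : 0 ≤ A) (hb0 : 0 ≤ b0) (hε : 0 < ε) :
    ∃ e0 : ℝ, 0 < e0 ∧ ∀ (e : ℝ) (he : 0 < e), e ≤ e0 → ∀ (q lm et : ℕ → ℝ) (L : ℕ → Lab S) (b : Bx s q lm et L)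
      (i0 : ℕ) (ηn : ℝ) (hn : ηn ≤ b.bd.eta i0), |ηn - eta c| ≤ A * e → ∀ (W : Sp) (p : Pj W (b.bd.Sj i0 e he))
      (E : ∀ k, (W.F k).Ω → Prop) (hE : 0 < ul (W.pr E)) (u v : ℝ), 0 ≤ u → u ≤ v → v ≤ b0 →
      h (ph p E hE (TR.dg (b.bd.zT i0 e he ηn hn) v)) (ph p E hE (TR.dg (b.bd.zT i0 e he ηn hn) u) ⊔
        ph p E hE (Ma b.bd i0 he)) ≤ (y' - 2) * (v - u) + ε := by
  obtain ⟨e1, he1, g1⟩ := uns_sys C3 H hd hη hw hl hor hy h0 h1 (A := A + b0) (ε := ε) (by positivity) hε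
  obtain ⟨e2, he2, g2⟩ : ∃ e2 : ℝ, 0 < e2 ∧ (A + b0) * e2 ≤ 1 - eta c :=
    ⟨(1 - eta c) / (A + b0 + 1), div_pos (by linarith) (by positivity), by
      rw [← mul_div_assoc, div_le_iff₀ (by positivity)]
      nlinarith⟩
  refine ⟨min e1 e2, lt_min he1 he2, fun e he hee q lm et L b i0 ηn hn hA' W p E hE u v hu huv hv => ?_⟩
  have k1 : e ≤ e1 := hee.trans (min_le_left _ _)
  have k2 : e ≤ e2 := hee.trans (min_le_right _ _)
  obtain ⟨a, ha⟩ : ∃ a, a = (ηn - eta c) / e := ⟨_, rfl⟩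
  have ha1 : a * e = ηn - eta c := by rw [ha, div_mul_cancel₀ _ he.ne']
  have ha2 : |a| ≤ A := by rw [ha, abs_div, abs_of_pos he, div_le_iff₀ he]; exact hA'
  obtain ⟨ha3, ha4⟩ := abs_le.1 ha2
  have f1 := g1 e he k1 (b.M.lab i0) W p E hE (a + u) (a + v) (by linarith) (by linarith) (by linarith)
  have r1 : eta c + (a + v) * e = ηn + e * v := by linear_combination ha1
  have r2 : eta c + (a + u) * e = ηn + e * u := by linear_combination ha1
  rw [r1, r2] at f1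
  have hle : ηn + e * v ≤ 1 := by
    rw [← r1]
    have : (a + v) * e ≤ (A + b0) * e := mul_le_mul_of_nonneg_right (by linarith) he.le
    have := mul_le_mul_of_nonneg_left k2 (show 0 ≤ A + b0 by positivity)
    linarith
  have hle' : ηn + e * u ≤ 1 := by
    have := mul_le_mul_of_nonneg_left huv he.le
    linarith
  rw [BD.zT_dg, BD.zT_dg]
  refine (all_dig hle' hle).trans ?_
  have e1' : ph p E hE (cc b.bd i0 he (TR.dg b.bd.z (ηn + e * v))) =
      restL E hE (p.map ((b.M.lab i0).upL e he (TR.dg (pc s C3.z.succ) (ηn + e * v)))) := by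
    have h2 := map_cor b 2 (ηn + e * v)
    unfold ph cc
    rw [show TR.dg b.bd.z (ηn + e * v) = TR.dg (TR.cor b.sy.P 2) (ηn + e * v) from rfl, ← h2]
    rfl
  have e2' : ph p E hE (cc b.bd i0 he (TR.dg b.bd.z (ηn + e * u))) ⊔ ph p E hE (Ma b.bd i0 he) =
      restL E hE (p.map ((b.M.lab i0).upL e he (C3.M s 1 ⊔ (TR.dg (pc s C3.z.succ) (ηn + e * u) ⊔ s.T)))) := by
    have h2 := map_M b (ηn + e * u)
    unfold Ma
    rw [← ph_sup, ← cc_sup, ← h2]
    rfl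
  rw [e1', e2']
  refine f1.trans (le_of_eq ?_)
  push_cast
  ring

end

end Pool.Agent.Helper30.UNS
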