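import Pool.Agent.Helper80.HCI.Dcc

/-! The unsaturated top coordinate on the diagonal of the boxes: `UnBe` for the spaces of the sequence (rational levels,
error tending to `0`) => `UnA` for the diagonal. -/

set_option autoImplicit false

namespace Pool.Agent.Helper30.UNS

open Finset Filter Topology Pool.Agent.Helper69.RK Pool.Agent.Helper31.EC Pool.Agent.Helper40.EL
open Pool.Agent.Helper60.CS Pool.Agent.Helper82.TP Pool.Agent.Helper79.NF Pool.Agent.Helper31.NSB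
open Pool.Agent.Helper80.HCI

noncomputable section

open Sp QS

/-- `z` unsaturated over all of `M`, up to the level `b0`, approximate form -/
def UnBe {S : Sp} (H : RD S) (b0 ρ ε : ℝ) : Prop :=
  ∀ a b : ℚ, 0 ≤ a → a ≤ b → (b : ℝ) ≤ b0 → Slow.RobLe (dg H.z b) (dg H.z a ⊔ H.M) ((1 - ρ) * ((b : ℝ) - a) + ε)

variable {Sc : Set ℝ} {J : Inp Sc} {Λ : Type} {lv : Λ → ℝ} (s : Dg J lv)

/-- all real levels up to `b0`, on the diagonal -/
theorem unb {ρ b0 : ℝ} (hb0 : b0 ≤ 1) {ε : ℕ → ℝ} (hε : Tendsto ε atTop (𝓝 0))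
    (hu : ∀ᶠ j in atTop, UnBe (J.H j) b0 ρ (ε j))
    (T : Sp) (p : Pj T s.T) (E : ∀ k, (T.F k).Ω → Prop) (hE : 0 < ul (T.pr E)) (a b : ℝ) (ha : 0 ≤ a) (hab : a ≤ b)
    (hb : b ≤ b0) : h (restL E hE (p.map (dg s.HT.z b))) (restL E hE (p.map (dg s.HT.z a ⊔ s.HT.M))) ≤
      (1 - ρ) * (b - a) := by
  rcases hab.eq_or_lt with h4 | h4
  · subst h4
    rw [h_zero, sub_self, mul_zero]
    exact restL_mono E hE (p.map_mono le_sup_left)
  apply le_of_forall_pos_le_add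
  intro e he
  obtain ⟨η, hη0, hη1, hη2⟩ : ∃ η : ℝ, 0 < η ∧ η < b - a ∧ (1 + 2 * |1 - ρ|) * η ≤ e := by
    refine ⟨min ((b - a) / 2) (e / (1 + 2 * |1 - ρ|)), lt_min (by linarith) (by positivity),
      (min_le_left _ _).trans_lt (by linarith), ?_⟩
    have h6 : (0 : ℝ) < 1 + 2 * |1 - ρ| := by positivity
    calc _ ≤ (1 + 2 * |1 - ρ|) * (e / (1 + 2 * |1 - ρ|)) :=
          mul_le_mul_of_nonneg_left (min_le_right _ _) h6.le
      _ = e := by field_simp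
  obtain ⟨b', hb1, hb2⟩ := exists_rat_btwn (show b - η < b by linarith)
  obtain ⟨a', ha0, ha1, ha2⟩ : ∃ a' : ℚ, (0 : ℝ) ≤ a' ∧ a - η ≤ a' ∧ (a' : ℝ) ≤ a := by
    rcases ha.eq_or_lt with h5 | h5
    · exact ⟨0, by simp, by rw [← h5]; push_cast; linarith, by simp [← h5]⟩
    · obtain ⟨q, hq1, hq2⟩ := exists_rat_btwn (show max 0 (a - η) < a from max_lt h5 (by linarith))
      exact ⟨q, (le_max_left _ _).trans hq1.le, (le_max_right _ _).trans hq1.le, hq2.le⟩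
  have ha'b' : a' ≤ b' := by
    have : (a' : ℝ) ≤ b' := by linarith
    exact_mod_cast this
  have hb'0 : (b' : ℝ) ≤ b0 := hb2.le.trans hb
  have hb'1 : (b' : ℝ) ≤ 1 := hb'0.trans hb0
  have haq : 0 ≤ a' := by exact_mod_cast ha0
  have ha'1 : (a' : ℝ) ≤ 1 := by linarith
  have h1 : Slow.RobLe (dg s.HT.z b') (dg s.HT.z a' ⊔ s.HT.M) ((1 - ρ) * ((b' : ℝ) - a')) := by
    refine (s.rz.dgq b' hb'1).robLe ((s.rz.dgq a' ha'1).sup s.rM)
      (β := fun j => (1 - ρ) * ((b' : ℝ) - a') + ε j) ?_ (hu.mono fun j hj => hj a' b' haq ha'b' hb'0)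
    have h2 := hε.const_add ((1 - ρ) * ((b' : ℝ) - a'))
    rwa [add_zero] at h2
  have h2 := h1 T p E hE
  have h3 : Pool.Agent.Helper31.EC.h (restL E hE (p.map (dg s.HT.z b))) (restL E hE (p.map (dg s.HT.z b'))) ≤
      b - b' := by
    rw [← Pj.qs_dg, ← Pj.qs_dg, ← QS.rest_dg, ← QS.rest_dg]
    exact QS.h_dg_dg _ hb2.le
  have h5 : Pool.Agent.Helper31.EC.h (restL E hE (p.map (dg s.HT.z b')))
      (restL E hE (p.map (dg s.HT.z a ⊔ s.HT.M))) ≤ (1 - ρ) * ((b' : ℝ) - a') :=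
    le_trans (h_anti (restL_mono E hE (p.map_mono (sup_le_sup (QS.dg_mono _ ha2) le_rfl)))) h2
  have h6 := h_triangle' (restL E hE (p.map (dg s.HT.z b))) (restL E hE (p.map (dg s.HT.z b')))
    (restL E hE (p.map (dg s.HT.z a ⊔ s.HT.M)))
  have h8 : (1 - ρ) * ((b' : ℝ) - a') ≤ (1 - ρ) * (b - a) + 2 * |1 - ρ| * η := by
    have e2 : (1 - ρ) * ((b' - b) - ((a' : ℝ) - a)) ≤ |1 - ρ| * |(b' - b) - ((a' : ℝ) - a)| := by
      rw [← abs_mul]; exact le_abs_self _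
    have e3 : |(b' - b) - ((a' : ℝ) - a)| ≤ 2 * η := by
      rw [abs_le]; constructor <;> linarith
    have e4 := mul_le_mul_of_nonneg_left e3 (abs_nonneg (1 - ρ))
    nlinarith
  linarith

/-- the field `UnA` of the T-level theorem -/
theorem una {w ρ σ : ℝ} (hw : 0 ≤ w) (hσ : w * σ ≤ 1) (hle : ∀ r ∈ Sc, r ≤ σ) {ε : ℕ → ℝ} (hε : Tendsto ε atTop (𝓝 0))
    (hu : ∀ᶠ j in atTop, UnBe (J.H j) (w * σ) ρ (ε j)) : UnA s.HT w ρ Sc :=
  fun r hr T p E hE a b ha hab hb => unb s hσ hε hu T p E hE a b ha hab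
    (hb.trans (mul_le_mul_of_nonneg_left (hle r hr) hw))

end

end Pool.Agent.Helper30.UNS
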