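import Pool.Agent.Helper30.UNS.Nc

/-! Rates over ANY label on events of extensions are at most the rates of the system under the law of the event; lemma
NC on events of extensions of the space over a label. -/

set_option autoImplicit false

namespace Pool.Agent.Helper30.UNS

open Finset Filter Topology Pool.Agent.Helper69.RK Pool.Agent.Helper31.EC Pool.Agent.Helper31.EC.Sp
open Pool.Agent.Helper40.EL Pool.Agent.Helper52.KP Pool.Agent.Helper42.NS Pool.Agent.Helper91.GR
open Pool.Agent.Helper80.HCI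

noncomputable section

variable {S : Sp} (l : Lab S) {e : ℝ} {he : 0 < e} {W : Sp} (p : Pj W (l.ovr e he)) (E : ∀ k, (W.F k).Ω → Prop)

/-- `x'` is the information `x` under the law of the event -/
def ImR (x : S.L) (x' : (imS l p E).L) : Prop :=
  ∃ A : S.Inf, Sp.cl A = x ∧ Sp.cl (Sp.imI (exl l p).pj E A) = x'

variable {l p E} (hE : 0 < ul (W.pr E))

theorem ImR.sup {x y : S.L} {x' y' : (imS l p E).L} (hx : ImR l p E x x') (hy : ImR l p E y y') :
    ImR l p E (x ⊔ y) (x' ⊔ y') := by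
  obtain ⟨A, rfl, rfl⟩ := hx
  obtain ⟨B, rfl, rfl⟩ := hy
  exact ⟨Inf.sup A B, Sp.cl_sup A B, by rw [← Sp.cl_sup]; rfl⟩

/-- digits of a vector -/
theorem ImR.vv {q : ℕ} (y : S.VV q) (r : ℝ) : ImR l p E (y.dg r) ((y.im (exl l p).pj E).dg r) :=
  ⟨(y.bdd r).toInf, (Sp.io_eq _).symm, by
    have h1 : (y.im (exl l p).pj E).dg r = Sp.cl ((y.im (exl l p).pj E).bdd r).toInf := Sp.io_eq _
    rw [h1]
    rfl⟩

/-- rates over a label on an event -/
theorem ImR.h_le {x y : S.L} {x' y' : (imS l p E).L} (hx : ImR l p E x x') (hy : ImR l p E y y') :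
    h (restL E hE (p.map (l.upL e he x))) (restL E hE (p.map (l.upL e he y))) ≤ h x' y' / e := by
  obtain ⟨A, rfl, rfl⟩ := hx
  obtain ⟨B, rfl, rfl⟩ := hy
  rw [h_ovr]
  exact div_le_div_of_nonneg_right (h_up1_le _ _ _) he.le

variable {m N : ℕ} (C : Cd m N) (s : Sys S m)

theorem ImR.pc (j : Fin (m + 1)) (r : ℝ) :
    ImR l p E (TR.dg (pc s j) r) (TR.dg (pc (sysE l p E hE s) j) r) := by
  have h1 := ImR.vv (l := l) (p := p) (E := E) (TR.vec fun _ : Fin 1 => Pool.Agent.Helper91.GR.pc s j) r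
  exact h1

theorem ImR.M (r : ℝ) : ImR l p E (C.M s r) (C.M (sysE l p E hE s) r) := by
  have h1 := ImR.vv (l := l) (p := p) (E := E) (C.fl s) r
  have h2 := ImR.pc (l := l) (p := p) hE s C.R.succ r
  exact h1.sup h2

theorem ImR.T : ImR l p E s.T (sysE l p E hE s).T := ImR.vv (l := l) (p := p) (E := E) s.t 1

/-- what NC needs at the window `c` -/
def WN (C : Cd m N) {S : Sp} (s : Sys S m) (c lam eta : ℝ) : Prop :=
  ∃ (l : Lab S) (v w : ∀ k, (l k).T.Ω → Cf (m + 1)), IsKap s c l ∧ Sht s C.z C.Jz eta l v ∧ Sht s C.R C.JR lam l w ∧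
    N * (1 - c) + (1 - lam) ≤ h (up1 l (C.M s 1)) (up1 l s.T)

/-- LEMMA NC on events of extensions of the space over a label -/
theorem nc_ev {c lam eta r r' : ℝ} (hcl : c ≤ lam) (h1 : lam ≤ 1)
    (hre : r ≤ eta) (hrr : r ≤ r') (hr' : r' ≤ 1) (hW : WN C (sysE l p E hE s) c lam eta) :
    h (restL E hE (p.map (l.upL e he (TR.dg (Pool.Agent.Helper91.GR.pc s C.z.succ) r'))))
      (restL E hE (p.map (l.upL e he (C.M s 1 ⊔ (TR.dg (Pool.Agent.Helper91.GR.pc s C.z.succ) r ⊔ s.T))))) ≤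
      ((sysE l p E hE s).F 0 r' - (sysE l p E hE s).F 0 r - (N + 1) * (r' - r) +
        (N + 1) * max (lam - r) 0) / e := by
  obtain ⟨l', v, w, hl, hv, hw, hf⟩ := hW
  refine ((ImR.pc hE s C.z.succ r').h_le hE
    ((ImR.M hE C s 1).sup ((ImR.pc hE s C.z.succ r).sup (ImR.T hE s)))).trans ?_
  exact div_le_div_of_nonneg_right (nc_le C hcl h1 hre hrr hr' hl hv hw hf) he.le

end

end Pool.Agent.Helper30.UNS
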