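import Pool.Agent.Helper31.NSB.St
import Pool.Agent.Helper62.UR.Sw

/-! CASE B, `z` unsaturated given ALL digits of `M = (t, y, R)` (what lemma NC gives) implies the isotropic form (the
field `uns` of `CC`) if the weight of `z` is the highest; if the weight of `R` is the highest, exchange first. -/

set_option autoImplicit false

namespace Pool.Agent.Helper30.UNS

open Finset Filter Topology Pool.Agent.Helper69.RK Pool.Agent.Helper31.EC Pool.Agent.Helper82.TP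
open Pool.Agent.Helper79.NF Pool.Agent.Helper31.NSB Pool.Agent.Helper62.UR

noncomputable section

/-- `z` is a function of the label and of the coarse digits `J` of `M`, `M` is full beyond `J` over the label: fine digits
of `M` say nothing about `z` -/
theorem iso_lat {L : Type*} [PM L] {κ M J zs za : L} {F D G θ : ℝ} (hz : zs ≤ κ ⊔ J) (hza : za ≤ zs) (hJ : J ≤ M)
    (h1 : F ≤ h M κ) (h2 : h J κ ≤ D) (h3 : h M J ≤ G) (h4 : G ≤ F - D) (h5 : h zs (za ⊔ M) ≤ θ) :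
    h zs (za ⊔ J) ≤ θ := by
  have e1 : h M κ ≤ h M (κ ⊔ J) + h J κ := by
    have := h_triangle M J κ
    rwa [sup_comm J κ] at this
  have e2 : I κ M J = h M J - h M (κ ⊔ J) := I_eq' _ _ _
  have e3 : I κ M J = 0 := le_antisymm (by linarith) (I_nonneg _ _ _)
  have e4 : I (za ⊔ zs) M J ≤ I κ M J := I_mono_left (sup_le (hza.trans hz) hz)
  have e5 : I (za ⊔ zs) M J = I za M J + I zs M (za ⊔ J) := I_chain _ _ _ _
  have e6 : 0 ≤ I za M J := I_nonneg _ _ _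
  have e7 : I zs M (za ⊔ J) = h zs (za ⊔ J) - h zs (M ⊔ (za ⊔ J)) := I_eq _ _ _
  have e8 : M ⊔ (za ⊔ J) = za ⊔ M := le_antisymm (sup_le le_sup_right (sup_le le_sup_left (hJ.trans le_sup_right)))
    (sup_le (le_sup_left.trans le_sup_right) le_sup_left)
  rw [e8] at e7
  linarith

open Sp QS

/-- isotropic unsaturation -/
def UIso {S : Sp} (H : RD S) (ρ : ℝ) : Prop :=
  ∀ (T : Sp) (p : Pj T S) (E : ∀ k, (T.F k).Ω → Prop) (hE : 0 < ul (T.pr E)) (a b : ℝ), 0 ≤ a → a ≤ b → b ≤ 1 →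
    h (restL E hE (p.map (dg H.z b))) (restL E hE (p.map (dg H.z a ⊔ H.iso b))) ≤ (1 - ρ) * (b - a)

variable {S : Sp} {H : RD S} {f : FR S} {w1 w ρ σ : ℝ} {Sc : Set ℝ}

theorem C0.toCC (c : C0 H f w1 w Sc) (hu : UIso H ρ) (hρ : 0 < ρ) : CC H f w1 w ρ Sc := ⟨c, hu, hρ⟩

/-- LEMMA ISO -/
theorem C0.iso (c : C0 H f w1 w Sc) (hww : w1 ≤ w) (hσ : w * σ = 1) (hd : Dns Sc σ) (hu : UnA H w ρ Sc) :
    UIso H ρ := by
  intro T p E hE a b ha hab hb
  have hw0 : 0 < w := lt_of_lt_of_le one_pos c.hw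
  have hw10 : 0 < w1 := lt_of_lt_of_le one_pos c.hw1
  obtain ⟨r, hr⟩ : ∃ r : S.L → (T.rest E).L, r = fun X => restL E hE (p.map X) := ⟨_, rfl⟩
  have er : ∀ X, restL E hE (p.map X) = r X := fun X => by rw [hr]
  have rm : ∀ {X Y : S.L}, X ≤ Y → r X ≤ r Y := fun hXY => by
    rw [hr]; exact restL_mono E hE (p.map_mono hXY)
  have rs : ∀ X Y : S.L, r (X ⊔ Y) = r X ⊔ r Y := fun X Y => by
    rw [hr]; show restL E hE (p.map (X ⊔ Y)) = _; rw [Pj.map_sup, restL_sup]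
  have rd : ∀ (g : QS S) {u v : ℝ}, u ≤ v → h (r (dg g v)) (r (dg g u)) ≤ v - u := fun g u v huv => by
    rw [← er, ← er]; exact h_dg_rest p E hE g huv
  -- at a window
  have key : ∀ s ∈ Sc, a ≤ w * s → w * s ≤ 1 →
      h (r (dg H.z (w * s))) (r (dg H.z a ⊔ H.iso (w * s))) ≤ (1 - ρ) * (w * s - a) := by
    intro s hs has hs1
    have n0 := c.nn s hs
    have hws : w1 * s ≤ w * s := mul_le_mul_of_nonneg_right hww n0
    have hw1s : w1 * s ≤ 1 := hws.trans hs1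
    have hss : s ≤ w1 * s := by
      have := mul_le_mul_of_nonneg_right c.hw1 n0
      rwa [one_mul] at this
    have hs' : s ≤ 1 := hss.trans hw1s
    have bκ := c.bdd s hs
    obtain ⟨l1, l2, l3⟩ := c.lr s hs
    obtain ⟨l4, l5, l6, l7⟩ := c.lz s hs
    obtain ⟨l8, l9⟩ := c.lt s hs
    -- frames
    have kt : dg H.t s ≤ H.κ s := by
      rw [dg_eq_of_sub_mem (c.ft s hs).1 le_rfl hs']
      exact l8.dg_le bκ hs'
    have ky : dg H.y s ≤ H.κ s := by
      rw [dg_eq_of_sub_mem (c.fy s hs).1 le_rfl hs']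
      exact l9.dg_le bκ hs'
    have kκ : ∀ {g : QS S} {u : ℝ} (X : S.L), Lit (H.K s) g → u ≤ 1 → dg g u ≤ H.κ s ⊔ X := fun X hg hu1 =>
      (hg.dg_le bκ hu1).trans le_sup_left
    have kR : dg H.R (w1 * s) ≤ H.κ s ⊔ (dg H.t (w * s) ⊔ dg H.y (w * s)) := by
      rw [dg_eq_of_sub_mem (c.frR s hs) le_rfl hw1s]
      have a1 : dg H.t (w1 * s) ≤ H.κ s ⊔ (dg H.t (w * s) ⊔ dg H.y (w * s)) :=
        ((dg_mono _ hws).trans le_sup_left).trans le_sup_right
      have a2 : dg H.y (w1 * s) ≤ H.κ s ⊔ (dg H.t (w * s) ⊔ dg H.y (w * s)) :=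
        ((dg_mono _ hws).trans le_sup_right).trans le_sup_right
      exact dg_add_le' _ _ hw1s (dg_add_le' _ _ hw1s (kκ _ l1 hw1s) (dg_mul_le' _ _ hw1s (kκ _ l2 hw1s) a1))
        (dg_mul_le' _ _ hw1s (kκ _ l3 hw1s) a2)
    have kz : dg H.z (w * s) ≤ H.κ s ⊔ H.iso (w * s) := by
      rw [dg_eq_of_sub_mem (c.frZ s hs) le_rfl hs1]
      have a1 : dg H.t (w * s) ≤ H.κ s ⊔ H.iso (w * s) :=
        (le_sup_left.trans le_sup_left).trans le_sup_right
      have a2 : dg H.y (w * s) ≤ H.κ s ⊔ H.iso (w * s) :=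
        (le_sup_right.trans le_sup_left).trans le_sup_right
      have a3 : dg H.R (w * s) ≤ H.κ s ⊔ H.iso (w * s) := le_sup_right.trans le_sup_right
      exact dg_add_le' _ _ hs1 (dg_add_le' _ _ hs1 (dg_add_le' _ _ hs1 (kκ _ l4 hs1)
        (dg_mul_le' _ _ hs1 (kκ _ l5 hs1) a1)) (dg_mul_le' _ _ hs1 (kκ _ l6 hs1) a2))
        (dg_mul_le' _ _ hs1 (kκ _ l7 hs1) a3)
    -- counts
    have f1 : 3 - (2 + w1) * s ≤ h (r H.M) (r (H.κ s)) := by
      rw [← er, ← er]; exact c.full s hs hw1s T p E hE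
    have f2 : h (r (H.iso (w * s))) (r (H.κ s)) ≤ (w * s - s) + (w * s - s) + (w * s - w1 * s) := by
      have b1 : h (r (dg H.t (w * s))) (r (H.κ s)) ≤ w * s - s :=
        (h_anti (rm kt)).trans (rd _ (hss.trans hws))
      have b2 : h (r (dg H.y (w * s))) (r (dg H.t (w * s)) ⊔ r (H.κ s)) ≤ w * s - s :=
        (h_anti ((rm ky).trans le_sup_right)).trans (rd _ (hss.trans hws))
      have b3 : h (r (dg H.R (w * s))) (r (dg H.t (w * s)) ⊔ r (dg H.y (w * s)) ⊔ r (H.κ s)) ≤ w * s - w1 * s := by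
        refine (h_anti ?_).trans (rd _ hws)
        refine (rm kR).trans ?_
        rw [rs, rs, sup_comm]
      have b4 : r (H.iso (w * s)) = r (dg H.t (w * s)) ⊔ r (dg H.y (w * s)) ⊔ r (dg H.R (w * s)) := by
        rw [← rs, ← rs]; rfl
      rw [b4, h_chain, h_chain]
      linarith
    have f3 : h (r H.M) (r (H.iso (w * s))) ≤ (1 - w * s) + (1 - w * s) + (1 - w * s) := by
      have b4 : r H.M = r (dg H.t 1) ⊔ r (dg H.y 1) ⊔ r (dg H.R 1) := by
        rw [← rs, ← rs]; rfl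
      have b0 : ∀ g : QS S, dg g (w * s) ≤ H.iso (w * s) → h (r (dg g 1)) (r (H.iso (w * s))) ≤ 1 - w * s :=
        fun g hg => (h_anti (rm hg)).trans (rd g hs1)
      have b1 := b0 H.t (le_sup_left.trans le_sup_left)
      have b2 := b0 H.y (le_sup_right.trans le_sup_left)
      have b3 := b0 H.R le_sup_right
      rw [b4]
      have c1 := h_sup_le (r (dg H.t 1) ⊔ r (dg H.y 1)) (r (dg H.R 1)) (r (H.iso (w * s)))
      have c2 := h_sup_le (r (dg H.t 1)) (r (dg H.y 1)) (r (H.iso (w * s)))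
      linarith
    have f4 := hu s hs T p E hE a (w * s) ha has le_rfl
    rw [er, er, rs] at f4
    rw [rs]
    have k1 : r (dg H.z (w * s)) ≤ r (H.κ s) ⊔ r (H.iso (w * s)) := by
      rw [← rs]; exact rm kz
    have k2 : H.iso (w * s) ≤ H.M := sup_le_sup (sup_le_sup (dg_mono _ hs1) (dg_mono _ hs1)) (dg_mono _ hs1)
    exact iso_lat k1 (rm (dg_mono _ has)) (rm k2) f1 f2 f3 (by linarith) f4
  -- all levels
  rw [er, er]
  rcases hab.eq_or_lt with rfl | hab'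
  · rw [sub_self, mul_zero]
    exact (h_zero (rm le_sup_left)).le
  refine le_of_forall_pos_le_add fun ε hε => ?_
  obtain ⟨C, hC⟩ : ∃ C : ℝ, C = 1 + |1 - ρ| := ⟨_, rfl⟩
  have hC0 : 0 < C := by rw [hC]; positivity
  obtain ⟨η, hη⟩ : ∃ η : ℝ, η = min (ε / C) ((b - a) / 2) := ⟨_, rfl⟩
  have hη0 : 0 < η := by rw [hη]; exact lt_min (by positivity) (by linarith)
  have hη1 : η * C ≤ ε := by
    have : η ≤ ε / C := by rw [hη]; exact min_le_left _ _
    rwa [le_div_iff₀ hC0] at this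
  have hη2 : η ≤ (b - a) / 2 := by rw [hη]; exact min_le_right _ _
  have hbσ : b / w ≤ σ := by rw [div_le_iff₀ hw0, mul_comm, hσ]; exact hb
  obtain ⟨s, hs, hs1, hs2⟩ := hd ((b - η) / w) (b / w) (div_nonneg (by linarith) hw0.le)
    (div_lt_div_of_pos_right (by linarith) hw0) hbσ
  rw [div_lt_iff₀ hw0, mul_comm] at hs1
  rw [lt_div_iff₀ hw0, mul_comm] at hs2
  have k1 := key s hs (by linarith) (by linarith)
  have k2 : h (r (dg H.z b)) (r (dg H.z a ⊔ H.iso b)) ≤ h (r (dg H.z b)) (r (dg H.z (w * s))) +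
      h (r (dg H.z (w * s))) (r (dg H.z a ⊔ H.iso b)) := h_triangle' _ _ _
  have k3 := rd H.z hs2.le
  have k4 : h (r (dg H.z (w * s))) (r (dg H.z a ⊔ H.iso b)) ≤ h (r (dg H.z (w * s))) (r (dg H.z a ⊔ H.iso (w * s))) := by
    apply h_anti (rm _)
    exact sup_le_sup_left (sup_le_sup (sup_le_sup (dg_mono _ hs2.le) (dg_mono _ hs2.le)) (dg_mono _ hs2.le)) _
  have k5 : (1 - ρ) * (w * s - a) ≤ (1 - ρ) * (b - a) + |1 - ρ| * η := by
    have a1 : (1 - ρ) * ((w * s - a) - (b - a)) ≤ |1 - ρ| * |(w * s - a) - (b - a)| := by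
      rw [← abs_mul]
      exact le_abs_self _
    have a2 : |(w * s - a) - (b - a)| ≤ η := by
      rw [abs_le]
      constructor <;> linarith
    have a3 : |1 - ρ| * |(w * s - a) - (b - a)| ≤ |1 - ρ| * η := mul_le_mul_of_nonneg_left a2 (abs_nonneg _)
    linarith
  have k6 : η * C = η + |1 - ρ| * η := by rw [hC]; ring
  linarith

/-- LEMMA ISO for `CC` -/
theorem C0.cc (c : C0 H f w1 w Sc) (hww : w1 ≤ w) (hσ : w * σ = 1) (hd : Dns Sc σ) (hu : UnA H w ρ Sc)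
    (hρ : 0 < ρ) : CC H f w1 w ρ Sc := C0.toCC c (C0.iso c hww hσ hd hu) hρ

/-- row B_ISO -/
theorem st_iso : ST_ISO := fun _ _ _ _ _ _ _ _ c hu hρ hww hσ _ hd => C0.cc c hww hσ hd hu hρ

end

end Pool.Agent.Helper30.UNS
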