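import Pool.Agent.Helper91.GR.Nc
import Pool.Agent.Helper98.FR.Dom
import Pool.Agent.Helper80.HCI.Ov

/-! LEMMA NC at the levels below the depth of the sheet of `z`, any window; with an error if the slab of `R` is deeper
than the level. -/

set_option autoImplicit false

namespace Pool.Agent.Helper30.UNS

open Finset Filter Topology Pool.Agent.Helper69.RK Pool.Agent.Helper31.EC Pool.Agent.Helper31.EC.Sp
open Pool.Agent.Helper40.EL Pool.Agent.Helper52.KP Pool.Agent.Helper42.NS Pool.Agent.Helper91.GR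

noncomputable section

variable {S : Sp} {m N : ℕ}

/-- LEMMA NC -/
theorem nc_le (C : Cd m N) {s : Sys S m} {c lam eta r r' : ℝ} (hcl : c ≤ lam) (h1 : lam ≤ 1)
    (hre : r ≤ eta) (hrr : r ≤ r') (hr' : r' ≤ 1) {l : Lab S} (hl : IsKap s c l)
    {v w : ∀ k, (l k).T.Ω → Cf (m + 1)} (hv : Sht s C.z C.Jz eta l v) (hw : Sht s C.R C.JR lam l w)
    (hfull : N * (1 - c) + (1 - lam) ≤ h (up1 l (C.M s 1)) (up1 l s.T)) :
    h (TR.dg (pc s C.z.succ) r') (C.M s 1 ⊔ (TR.dg (pc s C.z.succ) r ⊔ s.T)) ≤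
      s.F 0 r' - s.F 0 r - (N + 1) * (r' - r) + (N + 1) * max (lam - r) 0 := by
  have hN : (0 : ℝ) ≤ N := Nat.cast_nonneg N
  have hc1 : c ≤ 1 := hcl.trans h1
  have hr1 : r ≤ 1 := hrr.trans hr'
  obtain ⟨zc, hzc⟩ : ∃ zc : ℝ → S.L, zc = fun u => TR.dg (pc s C.z.succ) u := ⟨_, rfl⟩
  obtain ⟨Rc, hRc⟩ : ∃ Rc : ℝ → S.L, Rc = fun u => TR.dg (pc s C.R.succ) u := ⟨_, rfl⟩
  have ez : ∀ u, TR.dg (pc s C.z.succ) u = zc u := fun u => by rw [hzc]
  have eR : ∀ u, TR.dg (pc s C.R.succ) u = Rc u := fun u => by rw [hRc]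
  have hzm : ∀ {u u' : ℝ}, u ≤ u' → zc u ≤ zc u' := fun hu => by rw [hzc]; exact TR.dg_mono _ hu
  have hRm : ∀ {u u' : ℝ}, u ≤ u' → Rc u ≤ Rc u' := fun hu => by rw [hRc]; exact TR.dg_mono _ hu
  have hT : ∀ u, u ≤ 1 → s.t.dg u ≤ s.T := fun u hu => s.t.dg_mono hu
  have hMr : ∀ u, C.M s u = (C.fl s).dg u ⊔ Rc u := fun u => by rw [← eR]; rfl
  rw [ez, ez]
  -- digits of the sheets
  have hzM : up1 l (zc r) ≤ up1 l (C.M s r) ⊔ up1 l s.T := by
    rw [← ez]
    refine hv.dg_le hre fun j hj => ?_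
    rw [← up1_sup]
    apply up1_mono
    unfold Cd.Jz at hj
    rw [Finset.mem_insert] at hj
    rcases hj with rfl | hj
    · rw [eR, hMr]
      exact (le_sup_right.trans le_sup_left : Rc r ≤ (C.fl s).dg r ⊔ Rc r ⊔ s.T)
    · rw [hMr]
      exact (C.sel_le s r j hj).trans (sup_le (le_sup_left.trans le_sup_left) ((hT r hr1).trans le_sup_right))
  obtain ⟨b, hb⟩ : ∃ b, b = min lam r := ⟨_, rfl⟩
  have hbl : b ≤ lam := by rw [hb]; exact min_le_left _ _
  have hbr : b ≤ r := by rw [hb]; exact min_le_right _ _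
  have hbm : lam - b = max (lam - r) 0 := by
    rw [hb]
    rcases le_total lam r with hh | hh
    · rw [min_eq_left hh, max_eq_right (by linarith), sub_self]
    · rw [min_eq_right hh, max_eq_left (by linarith)]
  have hRf : up1 l (Rc b) ≤ up1 l ((C.fl s).dg b) ⊔ up1 l s.T := by
    rw [← eR]
    refine hw.dg_le hbl fun j hj => ?_
    rw [← up1_sup]
    apply up1_mono
    exact (C.sel_le s b j hj).trans (sup_le_sup_left (hT b (hbl.trans h1)) _)
  have hcb : c - r ≤ lam - b := by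
    rw [hbm]
    exact (sub_le_sub_right hcl r).trans (le_max_left _ _)
  have hb0 : 0 ≤ lam - b := sub_nonneg.2 hbl
  have f2 : h (up1 l (C.M s r)) (up1 l s.T) ≤ N * (r - c) + N * (lam - b) + (r - b) := by
    have e1 : h (up1 l (C.M s r)) (up1 l s.T) = h (up1 l ((C.fl s).dg r)) (up1 l s.T) +
        h (up1 l (Rc r)) (up1 l ((C.fl s).dg r) ⊔ up1 l s.T) := by
      rw [hMr, up1_sup, h_chain]
    have e2 : h (up1 l ((C.fl s).dg r)) (up1 l s.T) ≤ N * (r - c) + N * (lam - b) := by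
      obtain ⟨c', hc'⟩ : ∃ c', c' = min c r := ⟨_, rfl⟩
      have hcc : c' ≤ c := by rw [hc']; exact min_le_left _ _
      have hcr' : c' ≤ r := by rw [hc']; exact min_le_right _ _
      have hcc' : c - c' ≤ lam - b := by
        rw [hc']
        rcases le_total c r with hh | hh
        · rw [min_eq_left hh, sub_self]
          exact hb0
        · rw [min_eq_right hh]
          exact hcb
      have e3 : up1 l ((C.fl s).dg c) = ⊥ := by
        apply le_antisymm _ bot_le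
        rw [← hl.P_bot hc1]
        have e4 : (C.fl s).dg c ≤ s.P.dg c ⊔ s.t.dg c := le_sup_left.trans (C.M_t_le s)
        have e5 := up1_mono l e4
        rw [up1_sup, hl.t_bot hc1, sup_bot_eq] at e5
        exact e5
      have e6 : up1 l ((C.fl s).dg c') = ⊥ := le_antisymm (e3 ▸ up1_mono l ((C.fl s).dg_mono hcc)) bot_le
      calc h (up1 l ((C.fl s).dg r)) (up1 l s.T) ≤ H (up1 l ((C.fl s).dg r)) := h_le_H _ _
        _ = h (up1 l ((C.fl s).dg r)) (up1 l ((C.fl s).dg c')) := by rw [e6, h_bot]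
        _ ≤ h ((C.fl s).dg r) ((C.fl s).dg c') := h_up1_le l _ _
        _ ≤ N * (r - c') := (C.fl s).h_dg_dg hcr'
        _ ≤ N * (r - c) + N * (lam - b) := by nlinarith
    have e3 : h (up1 l (Rc r)) (up1 l ((C.fl s).dg r) ⊔ up1 l s.T) ≤ r - b := by
      have e4 : up1 l (Rc b) ≤ up1 l ((C.fl s).dg r) ⊔ up1 l s.T :=
        hRf.trans (sup_le_sup_right (up1_mono l ((C.fl s).dg_mono hbr)) _)
      calc h (up1 l (Rc r)) (up1 l ((C.fl s).dg r) ⊔ up1 l s.T) ≤ h (up1 l (Rc r)) (up1 l (Rc b)) := h_anti e4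
        _ ≤ h (Rc r) (Rc b) := h_up1_le l _ _
        _ ≤ (1 : ℕ) * (r - b) := by rw [hRc]; exact VV.h_dg_dg _ hbr
        _ = r - b := by push_cast; ring
    linarith
  have f3 : ((N : ℝ) + 1) * (1 - r) - (N + 1) * max (lam - r) 0 ≤ h (C.M s 1) (C.M s r ⊔ zc r ⊔ s.T) := by
    have e1 : h (up1 l (C.M s 1)) (up1 l (C.M s r ⊔ zc r ⊔ s.T)) ≤ h (C.M s 1) (C.M s r ⊔ zc r ⊔ s.T) := h_up1_le l _ _
    have e2 : up1 l (C.M s r ⊔ zc r ⊔ s.T) = up1 l (C.M s r) ⊔ up1 l s.T := by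
      rw [up1_sup, up1_sup]
      apply le_antisymm
      · exact sup_le (sup_le le_sup_left hzM) le_sup_right
      · exact sup_le (le_sup_left.trans le_sup_left) le_sup_right
    have e3 : h (up1 l (C.M s 1)) (up1 l s.T) = h (up1 l (C.M s r)) (up1 l s.T) +
        h (up1 l (C.M s 1)) (up1 l (C.M s r) ⊔ up1 l s.T) := by
      rw [← h_chain, sup_eq_right.mpr (up1_mono l (C.M_mono s hr1))]
    rw [e2] at e1
    rw [← hbm]
    nlinarith
  -- the deficit
  have f4 : h (C.M s r' ⊔ zc r') (C.M s r ⊔ zc r ⊔ s.T) ≤ s.F 0 r' - s.F 0 r := by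
    have e1 : ∀ u, u ≤ 1 → s.F 0 u = h (C.M s u ⊔ zc u) s.T := by
      intro u hu
      have e2 : s.F 0 u = h (s.x.dg 0 ⊔ s.P.dg u) s.T := rfl
      rw [e2, s.x.dg_nonpos le_rfl, bot_sup_eq, ← ez]
      apply h_congr_left
      · have := (C.P_eq s u).le
        exact (le_sup_left.trans this).trans (sup_le_sup_left (hT u hu) _)
      · have := (C.P_eq s u).ge
        exact (le_sup_left.trans this).trans (sup_le_sup_left (hT u hu) _)
    rw [e1 r' hr', e1 r hr1]
    have e2 : h (C.M s r' ⊔ zc r') s.T = h (C.M s r ⊔ zc r) s.T +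
        h (C.M s r' ⊔ zc r') (C.M s r ⊔ zc r ⊔ s.T) := by
      rw [← h_chain]
      congr 1
      exact (sup_eq_right.mpr (sup_le_sup (C.M_mono s hrr) (hzm hrr))).symm
    linarith
  have f5 : h (C.M s 1) (C.M s r' ⊔ s.T) ≤ (N + 1) * (1 - r') := by
    have e1 : h (C.M s 1) (C.M s r') ≤ (N + 1) * (1 - r') := by
      rw [hMr, hMr]
      have e2 := h_sup_le ((C.fl s).dg 1) (Rc 1) ((C.fl s).dg r' ⊔ Rc r')
      have e3 : h ((C.fl s).dg 1) ((C.fl s).dg r' ⊔ Rc r') ≤ N * (1 - r') :=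
        (h_anti le_sup_left).trans ((C.fl s).h_dg_dg hr')
      have e4 : h (Rc 1) ((C.fl s).dg r' ⊔ Rc r') ≤ (1 : ℕ) * (1 - r') := by
        refine (h_anti le_sup_right).trans ?_
        rw [hRc]
        exact VV.h_dg_dg _ hr'
      push_cast at e4
      linarith
    exact (h_anti le_sup_left).trans e1
  have f6 := Pool.Agent.Helper51.SW.nc_deficit (W := s.T) (M := C.M s 1) (Ms := C.M s r') (Mr := C.M s r) (zs := zc r')
    (zr := zc r) (C.M_mono s hr') (C.M_mono s hrr) f4 f3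
  linarith

end

end Pool.Agent.Helper30.UNS
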