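import Pool.Agent.Helper30.UNS.Sys
import Pool.Agent.Helper98.FR.Ex
import Pool.Agent.Helper80.HCI.Lk

/-! Informations on events of extensions of a space, and their classes over a finer base. Fullness over the finer base
persists on events. The two lattices lemma. -/

set_option autoImplicit false

namespace Pool.Agent.Helper30.UNS

open Finset Filter Topology Pool.Agent.Helper69.RK Pool.Agent.Helper31.EC
open Pool.Agent.Helper80.HCI Pool.Agent.Helper60.CS

noncomputable section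

/-- TWO LATTICES: `ψ` conditions on a label which, together with the coarse digits `J` of `M`, knows `zs`; `M` is full
beyond `J` over the label: fine digits of `M` say nothing about `zs` -/
theorem two_lat {L L' : Type*} [PM L] [PM L'] {ψ : L → L'} (hle : ∀ x y, h (ψ x) (ψ y) ≤ h x y)
    (hs : ∀ x y, ψ (x ⊔ y) = ψ x ⊔ ψ y) {M J zs za : L} {F D G θ : ℝ} (hz : ψ zs ≤ ψ J) (hza : za ≤ zs) (hJ : J ≤ M)
    (h1 : F ≤ H (ψ M)) (h2 : H (ψ J) ≤ D) (h3 : h M J ≤ G) (h5 : h zs (za ⊔ M) ≤ θ) :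
    h zs (za ⊔ J) ≤ θ + (G - (F - D)) := by
  have e1 : I zs M (za ⊔ J) = h zs (za ⊔ J) - h zs (M ⊔ (za ⊔ J)) := I_eq _ _ _
  have e2 : I zs M (za ⊔ J) = h M (za ⊔ J) - h M (zs ⊔ (za ⊔ J)) := I_eq' _ _ _
  have e3 : M ⊔ (za ⊔ J) = za ⊔ M := le_antisymm (sup_le le_sup_right (sup_le le_sup_left (hJ.trans le_sup_right)))
    (sup_le (le_sup_left.trans le_sup_right) le_sup_left)
  have e4 : zs ⊔ (za ⊔ J) = zs ⊔ J := le_antisymm (sup_le le_sup_left (sup_le (hza.trans le_sup_left) le_sup_right))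
    (sup_le le_sup_left (le_sup_right.trans le_sup_right))
  have e5 : h M (za ⊔ J) ≤ G := (h_anti le_sup_right).trans h3
  have e6 : h (ψ M) (ψ (zs ⊔ J)) ≤ h M (zs ⊔ J) := hle _ _
  have e7 : ψ (zs ⊔ J) = ψ J := by rw [hs, sup_eq_right.2 hz]
  have e8 : ψ M ⊔ ψ J = ψ M := by rw [← hs, sup_eq_left.2 hJ]
  have e9 : H (ψ M ⊔ ψ J) = H (ψ J) + h (ψ M) (ψ J) := by rw [sup_comm, H_chain]
  rw [e8] at e9
  rw [e3] at e1
  rw [e4] at e2
  rw [e7] at e6
  linarith

open Sp

variable {X W : Sp} (V : ∀ k, Setoid (X.F k).Ω) (p : Pj W X) (E : ∀ k, (W.F k).Ω → Prop) (hE : 0 < ul (W.pr E))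

/-- the information on the event -/
def ph (x : X.L) : (W.rest E).L := restL E hE (p.map x)

/-- the finer base on the extension -/
def Zi : ∀ k, Setoid ((W.rest E).F k).Ω := fun k => Setoid.comap (p.π k) (V k)

/-- the class over the finer base -/
def ps (x : X.L) : ((W.rest E).chg (Zi V p E) 1 one_pos).L := chgL (Zi V p E) 1 one_pos (ph p E hE x)

variable {V p E hE}

theorem ph_mono {x y : X.L} (h : x ≤ y) : ph p E hE x ≤ ph p E hE y := restL_mono E hE (p.map_mono h)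

theorem ph_sup (x y : X.L) : ph p E hE (x ⊔ y) = ph p E hE x ⊔ ph p E hE y := by
  unfold ph
  rw [Pj.map_sup, restL_sup]

theorem ph_bot : ph p E hE ⊥ = ⊥ := by
  unfold ph
  rw [Pj.map_bot, restL_bot]

theorem ph_dg_eq (f : TR X) (r : ℝ) : ph p E hE (TR.dg f r) = TR.dg (TR.rest E (p.tr f)) r := by
  unfold ph
  rw [TR.rest_dg E hE, Pj.tr_dg]

theorem ph_dg (f : TR X) {r r' : ℝ} (hr : r ≤ r') :
    h (ph p E hE (TR.dg f r')) (ph p E hE (TR.dg f r)) ≤ r' - r := by
  rw [ph_dg_eq, ph_dg_eq]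
  have h1 := VV.h_dg_dg (TR.vec fun _ : Fin 1 => TR.rest E (p.tr f)) hr
  rw [Nat.cast_one, one_mul] at h1
  exact h1

theorem ps_mono {x y : X.L} (h : x ≤ y) : ps V p E hE x ≤ ps V p E hE y := chgL_mono _ _ _ (ph_mono h)

theorem ps_sup (x y : X.L) : ps V p E hE (x ⊔ y) = ps V p E hE x ⊔ ps V p E hE y := by
  unfold ps
  rw [ph_sup, chgL_sup]

theorem ps_le (x y : X.L) : h (ps V p E hE x) (ps V p E hE y) ≤ h (ph p E hE x) (ph p E hE y) :=
  h_chg_le _ _ _

variable (V p)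

/-- the extension over the finer base -/
def pjc : Pj (W.chg (fun k => Setoid.comap (p.π k) (V k)) 1 one_pos) (X.chg V 1 one_pos) where
  π := p.π
  law := p.law
  hZ := fun k ω ω' h h' => by
    constructor
    · rintro ⟨a, b⟩
      exact ⟨a, (p.hZ k ω ω' h h').mp b⟩
    · rintro ⟨a, b⟩
      exact ⟨a, (p.hZ k ω ω' h h').mpr b⟩
  hn := fun k => by
    show 1 * (W.F k).n = 1 * (X.F k).n
    rw [p.hn k]

variable {V p}

theorem ps_eq (x : X.L) : ps V p E hE x =
    restL (S := W.chg (fun k => Setoid.comap (p.π k) (V k)) 1 one_pos) E hE ((pjc V p).map (chgL V 1 one_pos x)) := by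
  induction x using Sp.cl_ind with | h A
  rfl

/-- what is known to the finer base -/
theorem ps_bot {x : X.L} (h : chgL V 1 one_pos x = ⊥) : ps V p E hE x = ⊥ := by
  have h1 : (pjc V p).map (chgL V 1 one_pos x) = ⊥ := by rw [h, Pj.map_bot]
  exact (ps_eq x).trans ((congrArg (fun a => restL (S := W.chg (fun k => Setoid.comap (p.π k) (V k)) 1 one_pos) E hE a)
    h1).trans (restL_bot _ _))

/-- FULLNESS over the finer base on events, if the bound holds on all events -/
theorem ps_full {x : X.L} {F : ℝ} (h0 : F ≤ H (chgL V 1 one_pos x))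
    (hF : ∀ (E' : ∀ k, (W.F k).Ω → Prop) (hE' : 0 < ul (W.pr E')), H (ps V p E' hE' x) ≤ F) :
    F ≤ H (ps V p E hE x) := by
  obtain ⟨X', hX⟩ : ∃ X', X' = (pjc V p).map (chgL V 1 one_pos x) := ⟨_, rfl⟩
  have e1 : H X' = H (chgL V 1 one_pos x) := by
    rw [hX, Pj.H_map]
  have hF' : ∀ (E' : ∀ k, (W.F k).Ω → Prop) (hE' : 0 < ul (W.pr E')),
      H (restL (S := W.chg (fun k => Setoid.comap (p.π k) (V k)) 1 one_pos) E' hE' X') ≤ F := fun E' hE' => by
    have := hF E' hE'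
    rw [ps_eq] at this
    rw [hX]
    exact this
  have ht : Typ (S := W.chg (fun k => Setoid.comap (p.π k) (V k)) 1 one_pos) (fun _ _ => True) := Typ_true
  have e2 : H X' ≤ F := by
    have h2 := hF' (fun _ _ => True) (ul_pr_typ_pos (S := W.chg (fun k => Setoid.comap (p.π k) (V k)) 1 one_pos) _ ht)
    have h3 := h_restL_typ (S := W.chg (fun k => Setoid.comap (p.π k) (V k)) 1 one_pos) (fun _ _ => True) ht X' ⊥
    rw [restL_bot, h_bot, h_bot] at h3
    rw [← h3]
    exact h2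
  have e4 : h X' ⊥ = F := by
    rw [h_bot]
    exact le_antisymm e2 (e1 ▸ h0)
  have h5 := Sp.h_rest_max (S := W.chg (fun k => Setoid.comap (p.π k) (V k)) 1 one_pos) E hE e4 (fun E' hE' => by
    have e5 : restL (S := W.chg (fun k => Setoid.comap (p.π k) (V k)) 1 one_pos) E' hE' ⊥ = ⊥ := restL_bot _ _
    rw [e5, h_bot]
    exact hF' E' hE')
  have e6 : restL (S := W.chg (fun k => Setoid.comap (p.π k) (V k)) 1 one_pos) E hE ⊥ = ⊥ := restL_bot _ _
  rw [e6, h_bot] at h5
  have e7 : H (ps V p E hE x) =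
      H (restL (S := W.chg (fun k => Setoid.comap (p.π k) (V k)) 1 one_pos) E hE X') := by
    rw [hX]
    exact congrArg H (ps_eq x)
  rw [e7]
  exact h5.ge

end

end Pool.Agent.Helper30.UNS
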