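import Pool.Agent.Helper30.UNS.Fin
import Pool.Agent.Helper30.UNS.Dgu
import Pool.Agent.Helper98.FR.Dat

/-! The field `UnBe` of the corner `LD.rd` of a box. -/

set_option autoImplicit false

namespace Pool.Agent.Helper30.UNS

open Finset Filter Topology Pool.Agent.Helper69.RK Pool.Agent.Helper31.EC Pool.Agent.Helper31.EC.Sp
open Pool.Agent.Helper40.EL Pool.Agent.Helper52.KP Pool.Agent.Helper42.NS Pool.Agent.Helper91.GR
open Pool.Agent.Helper80.HCI Pool.Agent.Helper60.CS Pool.Agent.Helper98.FR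

noncomputable section

open QS

variable {S : Sp} {s : Sys S 3} {c d w w1 y' : ℝ} {lam eta y : ℝ → ℝ}

/-- UNSATURATED TOP COORDINATE of the corner `LD.rd` -/
theorem unBe_rd (H : NcH C3 s c d lam eta y) (hd : 0 < d) (hη : HasDerivAt eta w c) (hw : 1 ≤ w)
    (hl : HasDerivAt lam w1 c) (hor : lam c < eta c ∨ (lam c = eta c ∧ w1 = w)) (hy : HasDerivAt y y' (eta c))
    (h0 : 0 < eta c) (h1 : eta c < 1) (hc : c < 1) (hlc : lam c < 1) {σ : ℝ} (hσ : max w1 w * σ = 1) {A ε ρ : ℝ}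
    (hρ : y' ≤ 3 - ρ) (hA : 0 ≤ A) (hε : 0 < ε) :
    ∃ e0 : ℝ, 0 < e0 ∧ ∀ (e : ℝ) (he : 0 < e), e ≤ e0 → ∀ (q lm et : ℕ → ℝ) (L : ℕ → Lab S)
      (b : Bx s q lm et L) (i0 i : ℕ) (ηn : ℝ) (hn : ηn ≤ b.bd.eta i0) (ix : ℝ → ℕ), |ηn - eta c| ≤ A * e →
      ηn ≤ eta c → q i0 = c → q i = c + σ * e → lm i0 = lam c → lm i = lam (c + σ * e) → et i = eta (c + σ * e) →
      Frm b.bd i0 he i (b.bd.zT i0 e he ηn hn) ((et i - ηn) / e) →
      UnBe (b.ld.rd i0 e he ηn hn ix) (w * σ) ρ ε := by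
  obtain ⟨e0, he0, g⟩ := rob_uns H hd hη hw hl hor hy h0 h1 hc hlc hσ hA hε
  refine ⟨e0, he0, fun e he hee q lm et L b i0 i ηn hn ix hA' hn' q0 qi l0 li ei hf a b' ha hab hb => ?_⟩
  intro W p E hE
  have ha' : (0 : ℝ) ≤ a := by exact_mod_cast ha
  have hab' : (a : ℝ) ≤ b' := by exact_mod_cast hab
  refine (g e he hee q lm et L b i0 i ηn hn hA' hn' q0 qi l0 li ei hf a b' ha' hab' hb W p E hE).trans ?_
  have : (y' - 2) * ((b' : ℝ) - a) ≤ (1 - ρ) * ((b' : ℝ) - a) := mul_le_mul_of_nonneg_right (by linarith) (by linarith)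
  linarith

end

end Pool.Agent.Helper30.UNS
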