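import Mathlib

/-! Real analysis for lemma NC near a typical window. -/

set_option autoImplicit false

namespace Pool.Agent.Helper30.UNS

open Filter Topology

/-- increments near a point of differentiability, linear in the scale -/
theorem incr_e {F : ℝ → ℝ} {F' c : ℝ} (h : HasDerivAt F F' c) {A ε : ℝ} (hA : 0 ≤ A) (hε : 0 < ε) :
    ∃ e0 : ℝ, 0 < e0 ∧ ∀ e : ℝ, 0 < e → e ≤ e0 → ∀ u : ℝ, |u| ≤ A → |F (c + u * e) - F c - F' * u * e| ≤ ε * e := by
  rw [hasDerivAt_iff_isLittleO] at h
  have h1 := h.def (show 0 < ε / (A + 1) by positivity)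
  rw [Metric.eventually_nhds_iff] at h1
  obtain ⟨d, hd, h2⟩ := h1
  refine ⟨d / (2 * (A + 1)), by positivity, fun e he hee u hu => ?_⟩
  have h3 : |u * e| < d := by
    rw [abs_mul, abs_of_pos he]
    have h4 : |u| * e ≤ A * (d / (2 * (A + 1))) := mul_le_mul hu hee he.le hA
    have h5 : A * (d / (2 * (A + 1))) < d := by
      rw [← mul_div_assoc, div_lt_iff₀ (by positivity)]
      nlinarith
    linarith
  have h5 := h2 (y := c + u * e) (by
    rw [Real.dist_eq, add_sub_cancel_left]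
    exact h3)
  rw [Real.norm_eq_abs, Real.norm_eq_abs, add_sub_cancel_left, smul_eq_mul] at h5
  have e1 : F (c + u * e) - F c - F' * u * e = F (c + u * e) - F c - u * e * F' := by ring
  rw [e1]
  refine h5.trans ?_
  rw [abs_mul, abs_of_pos he, div_mul_eq_mul_div, div_le_iff₀ (by positivity)]
  have h6 : |u| * e ≤ A * e := mul_le_mul_of_nonneg_right hu he.le
  have h7 : ε * (|u| * e) ≤ ε * (A * e) := mul_le_mul_of_nonneg_left h6 hε.le
  have h8 : 0 < ε * e := by positivity
  nlinarith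

/-- WINDOWS FOR NC: at every level near `η c` there is a window near `c` whose sheet is deep enough and whose slab is not
deeper than the level -/
theorem exists_win {η lam : ℝ → ℝ} {c w w1 : ℝ} (hη : HasDerivAt η w c) (hw : 1 ≤ w) (hl : HasDerivAt lam w1 c)
    (hor : lam c < η c ∨ (lam c = η c ∧ w1 = w)) {A ε d : ℝ} (hA : 0 ≤ A) (hε : 0 < ε) (hd : 0 < d) :
    ∃ e0 : ℝ, 0 < e0 ∧ ∀ e : ℝ, 0 < e → e ≤ e0 → ∀ u : ℝ, |u| ≤ A →
      ∃ c' : ℝ, |c' - c| < d ∧ η c + u * e ≤ η c' ∧ lam c' ≤ η c + u * e + ε * e := by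
  have hw0 : 0 < w := by linarith
  rcases hor with hor | ⟨hor, hww⟩
  · -- the slab is coarse
    obtain ⟨e1, he1, h1⟩ := incr_e hη (show (0 : ℝ) ≤ A + 1 by linarith) one_pos
    obtain ⟨e2, he2, h2⟩ := incr_e hl (show (0 : ℝ) ≤ A + 1 by linarith) one_pos
    obtain ⟨e3, he3, h3⟩ : ∃ e3 : ℝ, 0 < e3 ∧ (|w1| * (A + 1) + 1 + A) * e3 ≤ η c - lam c := by
      have hp : 0 < |w1| * (A + 1) + 1 + A := by positivity
      refine ⟨(η c - lam c) / (|w1| * (A + 1) + 1 + A), by
        have : 0 < η c - lam c := by linarith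
        positivity, ?_⟩
      rw [mul_div_cancel₀ _ hp.ne']
    obtain ⟨e4, he4, h4⟩ : ∃ e4 : ℝ, 0 < e4 ∧ (A + 1) * e4 < d :=
      ⟨d / (2 * (A + 1)), by positivity, by
        rw [← mul_div_assoc, div_lt_iff₀ (by positivity)]
        nlinarith⟩
    refine ⟨min (min e1 e2) (min e3 e4), by positivity, fun e he hee u hu => ?_⟩
    have k1 : e ≤ e1 := hee.trans ((min_le_left _ _).trans (min_le_left _ _))
    have k2 : e ≤ e2 := hee.trans ((min_le_left _ _).trans (min_le_right _ _))
    have k3 : e ≤ e3 := hee.trans ((min_le_right _ _).trans (min_le_left _ _))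
    have k4 : e ≤ e4 := hee.trans ((min_le_right _ _).trans (min_le_right _ _))
    have hu' := abs_le.1 hu
    have hAa : |A + 1| ≤ A + 1 := by rw [abs_of_nonneg (by linarith)]
    have g1 := abs_le.1 (h1 e he k1 (A + 1) hAa)
    have g2 := abs_le.1 (h2 e he k2 (A + 1) hAa)
    refine ⟨c + (A + 1) * e, ?_, ?_, ?_⟩
    · rw [add_sub_cancel_left, abs_of_nonneg (by positivity)]
      have : (A + 1) * e ≤ (A + 1) * e4 := mul_le_mul_of_nonneg_left k4 (by linarith)
      linarith
    · have a1 : (A + 1) * e ≤ w * (A + 1) * e := by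
        have : (A + 1) * e * 1 ≤ (A + 1) * e * w := mul_le_mul_of_nonneg_left hw (by positivity)
        linarith
      have a2 : u * e ≤ A * e := mul_le_mul_of_nonneg_right hu'.2 he.le
      linarith [g1.1]
    · have a1 : w1 * (A + 1) * e ≤ |w1| * (A + 1) * e := by
        have : w1 * ((A + 1) * e) ≤ |w1| * ((A + 1) * e) := mul_le_mul_of_nonneg_right (le_abs_self _) (by positivity)
        linarith
      have a2 : -(A * e) ≤ u * e := by
        have := mul_le_mul_of_nonneg_right hu'.1 he.le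
        linarith
      have a3 : (|w1| * (A + 1) + 1 + A) * e ≤ (|w1| * (A + 1) + 1 + A) * e3 :=
        mul_le_mul_of_nonneg_left k3 (by positivity)
      have a4 : 0 < ε * e := by positivity
      nlinarith [g2.2]
  · -- the slab and the sheet have the same depth and the same speed
    subst hww
    obtain ⟨δ, hδ, hδ1⟩ : ∃ δ : ℝ, 0 < δ ∧ (w1 + 1) * δ ≤ ε := ⟨ε / (w1 + 1), by positivity, by
      rw [mul_div_cancel₀]
      linarith⟩
    obtain ⟨B, hB⟩ : ∃ B : ℝ, B = A + δ := ⟨_, rfl⟩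
    have hB0 : 0 < B := by rw [hB]; positivity
    obtain ⟨e1, he1, h1⟩ := incr_e hη hB0.le hδ
    obtain ⟨e2, he2, h2⟩ := incr_e hl hB0.le hδ
    obtain ⟨e4, he4, h4⟩ : ∃ e4 : ℝ, 0 < e4 ∧ B * e4 < d := ⟨d / (2 * B), by positivity, by
      rw [← mul_div_assoc, div_lt_iff₀ (by positivity)]
      nlinarith⟩
    refine ⟨min (min e1 e2) e4, by positivity, fun e he hee u hu => ?_⟩
    have k1 : e ≤ e1 := hee.trans ((min_le_left _ _).trans (min_le_left _ _))
    have k2 : e ≤ e2 := hee.trans ((min_le_left _ _).trans (min_le_right _ _))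
    have k4 : e ≤ e4 := hee.trans (min_le_right _ _)
    have hs : |u / w1 + δ| ≤ B := by
      refine (abs_add_le _ _).trans ?_
      rw [abs_div, abs_of_pos hw0, abs_of_pos hδ, hB]
      have : |u| / w1 ≤ |u| := div_le_self (abs_nonneg _) hw
      linarith
    have g1 := abs_le.1 (h1 e he k1 _ hs)
    have g2 := abs_le.1 (h2 e he k2 _ hs)
    have e5 : w1 * (u / w1 + δ) * e = u * e + w1 * δ * e := by
      field_simp
    rw [e5] at g1 g2
    refine ⟨c + (u / w1 + δ) * e, ?_, ?_, ?_⟩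
    · rw [add_sub_cancel_left, abs_mul, abs_of_pos he]
      have a1 : |u / w1 + δ| * e ≤ B * e4 := mul_le_mul hs k4 he.le hB0.le
      linarith
    · have a1 : δ * e ≤ w1 * δ * e := by
        have : δ * e * 1 ≤ δ * e * w1 := mul_le_mul_of_nonneg_left hw (by positivity)
        linarith
      linarith [g1.1]
    · have a1 : (w1 + 1) * δ * e ≤ ε * e := mul_le_mul_of_nonneg_right hδ1 he.le
      rw [hor] at g2
      nlinarith [g2.2]

end Pool.Agent.Helper30.UNS
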