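import Pool.Agent.Helper30.UNS.Iso

/-! CASE B, exchange of `R` and `z` if the weight of `R` is the highest: input with ALL digits, output `CC`. -/

set_option autoImplicit false

namespace Pool.Agent.Helper30.UNS

open Finset Filter Topology Pool.Agent.Helper69.RK Pool.Agent.Helper31.EC Pool.Agent.Helper82.TP
open Pool.Agent.Helper79.NF Pool.Agent.Helper31.NSB Pool.Agent.Helper62.UR

noncomputable section

open Sp QS

variable {S : Sp} {H : RD S} {f : FR S} {w1 w ρ σ : ℝ} {Sc : Set ℝ}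

/-- the label of the window `s` and the base know `R` and `z` up to the box -/
theorem C0.known (c : C0 H f w1 w Sc) (hww : w ≤ w1) {s : ℝ} (hs : s ∈ Sc) (hs1 : w1 * s ≤ 1) :
    dg H.R (w1 * s) ≤ H.κ s ⊔ H.q ∧ dg H.z (w * s) ≤ H.κ s ⊔ H.q := by
  have n0 := c.nn s hs
  have hz1 : w * s ≤ 1 := (mul_le_mul_of_nonneg_right hww n0).trans hs1
  have bκ := c.bdd s hs
  have kκ : ∀ {g : QS S} {r : ℝ}, Lit (H.K s) g → r ≤ 1 → dg g r ≤ H.κ s ⊔ H.q := fun hg hr =>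
    (hg.dg_le bκ hr).trans le_sup_left
  have kt : ∀ {r : ℝ}, r ≤ 1 → dg H.t r ≤ H.κ s ⊔ H.q := fun hr =>
    ((dg_mono _ hr).trans le_sup_left).trans le_sup_right
  have ky : ∀ {r : ℝ}, r ≤ 1 → dg H.y r ≤ H.κ s ⊔ H.q := fun hr =>
    ((dg_mono _ hr).trans le_sup_right).trans le_sup_right
  obtain ⟨l1, l2, l3⟩ := c.lr s hs
  obtain ⟨l4, l5, l6, l7⟩ := c.lz s hs
  have kR : dg H.R (w1 * s) ≤ H.κ s ⊔ H.q := by
    rw [dg_eq_of_sub_mem (c.frR s hs) le_rfl hs1]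
    exact dg_add_le' _ _ hs1 (dg_add_le' _ _ hs1 (kκ l1 hs1) (dg_mul_le' _ _ hs1 (kκ l2 hs1) (kt hs1)))
      (dg_mul_le' _ _ hs1 (kκ l3 hs1) (ky hs1))
  refine ⟨kR, ?_⟩
  rw [dg_eq_of_sub_mem (c.frZ s hs) le_rfl hz1]
  refine dg_add_le' _ _ hz1 (dg_add_le' _ _ hz1 (dg_add_le' _ _ hz1 (kκ l4 hz1)
    (dg_mul_le' _ _ hz1 (kκ l5 hz1) (kt hz1))) (dg_mul_le' _ _ hz1 (kκ l6 hz1) (ky hz1)))
    (dg_mul_le' _ _ hz1 (kκ l7 hz1) ?_)
  exact (dg_mono _ (mul_le_mul_of_nonneg_right hww n0)).trans kR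

theorem lit_zero {α : ℕ → Type} (V : ∀ k, (S.F k).Ω → α k) : Lit V (0 : QS S) :=
  ⟨0, map_zero _, Eventually.of_forall fun k ω ω' _ _ _ _ => rfl⟩

/-- fullness of `z` over the labels -/
theorem Fz.at0 (hz : Fz H f w1 w Sc) (c : C0 H f w1 w Sc) (hww : w ≤ w1) {s : ℝ} (hs : s ∈ Sc) (hs1 : w * s ≤ 1) :
    1 - w * s ≤ h (dg H.z 1) (H.κ s ⊔ H.q) := by
  have n0 := c.nn s hs
  have ht : Typ (S := S) (fun _ _ => True) := Typ_true
  have h1 := hz s hs s hs (fun _ _ => True) (ul_pr_typ_pos _ ht) 0 0 (lit_zero _) (lit_zero _) rfl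
    (mem_Id_nonpos (mul_nonpos_of_nonpos_of_nonneg (by linarith) n0)) hs1
  rw [zero_mul, sub_zero, QS.rest_dg, h_restL_typ _ ht] at h1
  exact h1

/-- fullness of `z` over the labels, all extensions and events -/
theorem Fz.at (hz : Fz H f w1 w Sc) (c : C0 H f w1 w Sc) (hww : w ≤ w1) {s : ℝ} (hs : s ∈ Sc) (hs1 : w1 * s ≤ 1)
    (T : Sp) (p : Pj T S) (E : ∀ k, (T.F k).Ω → Prop) (hE : 0 < ul (T.pr E)) :
    h (restL E hE (p.map (dg H.z 1))) (restL E hE (p.map (H.κ s ⊔ H.q))) = 1 - w * s := by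
  have hz1 : w * s ≤ 1 := (mul_le_mul_of_nonneg_right hww (c.nn s hs)).trans hs1
  exact full_rest p E hE hz1 (C0.known c hww hs hs1).2 (Fz.at0 hz c hww hs hz1)

/-- all levels up to the level of the last window -/
theorem UnA.unb (hu : UnA H w ρ Sc) (hw : 0 < w) (hd : Dns Sc σ) : UnB H.z H.M (w * σ) ρ := by
  intro T p E hE a b ha hab hb
  obtain ⟨r, hr⟩ : ∃ r : S.L → (T.rest E).L, r = fun X => restL E hE (p.map X) := ⟨_, rfl⟩
  have er : ∀ X, restL E hE (p.map X) = r X := fun X => by rw [hr]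
  have rm : ∀ {X Y : S.L}, X ≤ Y → r X ≤ r Y := fun hXY => by
    rw [hr]; exact restL_mono E hE (p.map_mono hXY)
  rw [er, er]
  rcases hab.eq_or_lt with rfl | hab'
  · rw [sub_self, mul_zero]
    exact (h_zero (rm le_sup_left)).le
  refine le_of_forall_pos_le_add fun ε hε => ?_
  obtain ⟨C, hC⟩ : ∃ C : ℝ, C = 1 + |1 - ρ| := ⟨_, rfl⟩
  have hC0 : 0 < C := by rw [hC]; positivity
  obtain ⟨η, hη⟩ : ∃ η : ℝ, η = min (ε / C) ((b - a) / 2) := ⟨_, rfl⟩
  have hη0 : 0 < η := by rw [hη]; exact lt_min (by positivity) (by linarith)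
  have hη1 : η * C ≤ ε := by
    have : η ≤ ε / C := by rw [hη]; exact min_le_left _ _
    rwa [le_div_iff₀ hC0] at this
  have hη2 : η ≤ (b - a) / 2 := by rw [hη]; exact min_le_right _ _
  have hbσ : b / w ≤ σ := by rw [div_le_iff₀ hw, mul_comm]; exact hb
  obtain ⟨s, hs, hs1, hs2⟩ := hd ((b - η) / w) (b / w) (div_nonneg (by linarith) hw.le)
    (div_lt_div_of_pos_right (by linarith) hw) hbσ
  rw [div_lt_iff₀ hw, mul_comm] at hs1
  rw [lt_div_iff₀ hw, mul_comm] at hs2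
  have k1 := hu s hs T p E hE a (w * s) ha (by linarith) le_rfl
  rw [er, er] at k1
  have k2 : h (r (dg H.z b)) (r (dg H.z a ⊔ H.M)) ≤ h (r (dg H.z b)) (r (dg H.z (w * s))) +
      h (r (dg H.z (w * s))) (r (dg H.z a ⊔ H.M)) := h_triangle' _ _ _
  have k3 : h (r (dg H.z b)) (r (dg H.z (w * s))) ≤ b - w * s := by
    rw [← er, ← er]; exact h_dg_rest p E hE H.z hs2.le
  have k5 : (1 - ρ) * (w * s - a) ≤ (1 - ρ) * (b - a) + |1 - ρ| * η := by
    have a1 : (1 - ρ) * ((w * s - a) - (b - a)) ≤ |1 - ρ| * |(w * s - a) - (b - a)| := by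
      rw [← abs_mul]
      exact le_abs_self _
    have a2 : |(w * s - a) - (b - a)| ≤ η := by
      rw [abs_le]
      constructor <;> linarith
    have a3 : |1 - ρ| * |(w * s - a) - (b - a)| ≤ |1 - ρ| * η := mul_le_mul_of_nonneg_left a2 (abs_nonneg _)
    linarith
  have k6 : η * C = η + |1 - ρ| * η := by rw [hC]; ring
  linarith

/-- `R` is unsaturated given all digits of `(t, y, z)` -/
theorem C0.unsR (c : C0 H f w1 w Sc) (hww : w < w1) (hz : Fz H f w1 w Sc) (hσ : w1 * σ = 1)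
    (hle : ∀ s ∈ Sc, s ≤ σ) (hd : Dns Sc σ) (hu : UnB H.z H.M (w * σ) ρ) :
    UnS H.R (H.q ⊔ dg H.z 1) 0 (ρ * (w / w1)) := by
  have hw0 : 0 < w := lt_of_lt_of_le one_pos c.hw
  have hw10 : 0 < w1 := lt_of_lt_of_le one_pos c.hw1
  have hw1s : ∀ s ∈ Sc, w1 * s ≤ 1 := fun s hs => by
    rw [← hσ]; exact mul_le_mul_of_nonneg_left (hle s hs) hw10.le
  have hws : ∀ s ∈ Sc, w * s ≤ 1 := fun s hs => (mul_le_mul_of_nonneg_right hww.le (c.nn s hs)).trans (hw1s s hs)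
  have hσ0 : 0 < σ := by
    by_contra hh
    push Not at hh
    have := mul_nonpos_of_nonneg_of_nonpos hw10.le hh
    linarith
  have key := swap_unB (q := H.q) (κ := H.κ) (R := H.R) (z := H.z) (wR := w1) (wz := w) (σ := σ) (ρ := ρ)
    (Sc := Sc ∩ Set.Ioi 0) hw10 hw0 hσ.le ((mul_le_mul_of_nonneg_right hww.le hσ0.le).trans hσ.le)
    (fun s hs => hs.2) (fun s hs => hle s hs.1) (fun a b ha hab hb => by
      obtain ⟨s, h1, h2, h3⟩ := hd a b ha.le hab hb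
      exact ⟨s, ⟨h1, lt_trans ha h2⟩, h2, h3⟩)
    (fun s hs => (C0.known c hww.le hs.1 (hw1s s hs.1)).1) (fun s hs => (C0.known c hww.le hs.1 (hw1s s hs.1)).2)
    (fun s hs => ?_) (fun s hs => ?_) hu
  · rw [hσ] at key
    exact key.uns
  · -- `R` is full over the base and the label
    have hs1 := hw1s s hs.1
    have n0 := c.nn s hs.1
    have ht : Typ (S := S) (fun _ _ => True) := Typ_true
    have k1 := c.full s hs.1 hs1 S (Pj.id S) (fun _ _ => True) (ul_pr_typ_pos _ ht)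
    rw [h_restL_typ _ ht, Pj.id_map, Pj.id_map] at k1
    have k2 : h H.q (H.κ s) ≤ (1 - s) + (1 - s) := by
      have hss : s ≤ 1 := by
        have := mul_le_mul_of_nonneg_right c.hw1 n0
        linarith
      have bκ := c.bdd s hs.1
      obtain ⟨l8, l9⟩ := c.lt s hs.1
      have kt : dg H.t s ≤ H.κ s := by
        rw [dg_eq_of_sub_mem (c.ft s hs.1).1 le_rfl hss]
        exact l8.dg_le bκ hss
      have ky : dg H.y s ≤ H.κ s := by
        rw [dg_eq_of_sub_mem (c.fy s hs.1).1 le_rfl hss]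
        exact l9.dg_le bκ hss
      have b1 : h (dg H.t 1) (H.κ s) ≤ 1 - s := (h_anti kt).trans (QS.h_dg_dg _ hss)
      have b2 : h (dg H.y 1) (H.κ s) ≤ 1 - s := (h_anti ky).trans (QS.h_dg_dg _ hss)
      have b3 := h_sup_le (dg H.t 1) (dg H.y 1) (H.κ s)
      show h (dg H.t 1 ⊔ dg H.y 1) (H.κ s) ≤ _
      linarith
    have k3 : h H.M (H.κ s) = h H.q (H.κ s) + h (dg H.R 1) (H.q ⊔ H.κ s) := h_chain _ _ _
    rw [sup_comm H.q] at k3
    linarith
  · -- `z` is full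
    exact Fz.at0 hz c hww.le hs.1 (hws s hs.1)

/-- the common fields after the exchange -/
theorem C0.swap (c : C0 H f w1 w Sc) (hww : w < w1) (hz : Fz H f w1 w Sc) (hσ : w1 * σ = 1)
    (hle : ∀ s ∈ Sc, s ≤ σ) : C0 (swp H) (swf f) w w1 Sc := by
  have hw0 : 0 < w := lt_of_lt_of_le one_pos c.hw
  have hw10 : 0 < w1 := lt_of_lt_of_le one_pos c.hw1
  have eL : (swp H).L = H.L := by
    show dg H.x 1 ⊔ dg H.a 1 ⊔ (dg H.v 1 ⊔ dg H.az 1) ⊔ (dg H.F 1 ⊔ dg H.cR 1) =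
      dg H.x 1 ⊔ dg H.a 1 ⊔ (dg H.F 1 ⊔ dg H.cR 1) ⊔ (dg H.v 1 ⊔ dg H.az 1)
    rw [sup_right_comm]
  have eB : (swp H).B = H.B := by
    show dg H.t 1 ⊔ dg H.y 1 ⊔ dg H.z 1 ⊔ dg H.R 1 = dg H.t 1 ⊔ dg H.y 1 ⊔ dg H.R 1 ⊔ dg H.z 1
    rw [sup_assoc (dg H.t 1 ⊔ dg H.y 1), sup_comm (dg H.z 1), ← sup_assoc]
  obtain ⟨a1, a2, a3, a4, a5, a6⟩ := c.lA
  obtain ⟨b1, b2, b3, b4⟩ := c.lB
  refine ⟨c.nn, c.zero, c.κ0, c.bdd, c.mono, c.nest, c.bA, c.iA.trans eL.symm, c.bB, c.iB.trans eB.symm,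
    ⟨a1, a2, a5, a6, a3, a4⟩, ⟨b1, b2, b4, b3⟩, ?_, ?_, ?_, ?_, c.lt, ?_, ?_, c.ft, c.fy, ?_, ?_, ?_, c.agr,
    c.hw, c.hw1⟩
  · rw [eL]
    exact c.time
  · intro s hs
    have := c.leakA s hs
    rw [eL]
    exact this
  · intro s hs
    rw [eB]
    exact c.T1 s hs
  · rw [eB]
    exact c.rich
  · intro s hs
    obtain ⟨l1, l2, l3⟩ := c.lr s hs
    obtain ⟨l4, l5, l6, l7⟩ := c.lz s hs
    exact ⟨l4.add (l7.mul l1), l5.add (l7.mul l2), l6.add (l7.mul l3)⟩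
  · intro s hs
    obtain ⟨l1, l2, l3⟩ := c.lr s hs
    exact ⟨l1, l2, l3, lit_zero _⟩
  · intro s hs
    have h1 := c.frZ s hs
    have h2 := Id_anti (mul_le_mul_of_nonneg_right hww.le (c.nn s hs)) (c.frR s hs)
    have h3 := (Id S (w * s)).add_mem h1 (Ideal.mul_mem_left _ (f.c s) h2)
    have e : (swp H).R - ((swf f).r0 s + (swf f).rt s * (swp H).t + (swf f).ry s * (swp H).y) =
        H.z - (f.z0 s + f.k0 s * H.t + f.k1 s * H.y + f.c s * H.R) +
          f.c s * (H.R - (f.r0 s + f.rt s * H.t + f.ry s * H.y)) := by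
      show H.z - ((f.z0 s + f.c s * f.r0 s) + (f.k0 s + f.c s * f.rt s) * H.t + (f.k1 s + f.c s * f.ry s) * H.y) = _
      ring
    rw [e]
    exact h3
  · intro s hs
    have h1 := c.frR s hs
    have e : (swp H).z - ((swf f).z0 s + (swf f).k0 s * (swp H).t + (swf f).k1 s * (swp H).y +
        (swf f).c s * (swp H).R) = H.R - (f.r0 s + f.rt s * H.t + f.ry s * H.y) := by
      show H.R - (f.r0 s + f.rt s * H.t + f.ry s * H.y + 0 * H.z) = _
      ring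
    rw [e]
    exact h1
  · intro s hs hs1 T p E hE
    have n0 := c.nn s hs
    have hs1' : w1 * s ≤ 1 := by
      rw [← hσ]
      exact mul_le_mul_of_nonneg_left (hle s hs) hw10.le
    have k1 := c.full s hs hs1' T p E hE
    have k2 := (Fz.at hz c hww.le hs hs1' T p E hE).ge
    have kR := (C0.known c hww.le hs hs1').1
    have k3 : h (restL E hE (p.map (dg H.R 1))) (restL E hE (p.map (H.κ s ⊔ H.q))) ≤ 1 - w1 * s :=
      (h_anti (restL_mono E hE (p.map_mono kR))).trans (h_dg_rest p E hE _ hs1')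
    have eM : restL E hE (p.map H.M) = restL E hE (p.map H.q) ⊔ restL E hE (p.map (dg H.R 1)) := by
      rw [← restL_sup, ← Pj.map_sup]
      rfl
    have eM' : restL E hE (p.map (swp H).M) = restL E hE (p.map H.q) ⊔ restL E hE (p.map (dg H.z 1)) := by
      rw [← restL_sup, ← Pj.map_sup]
      rfl
    rw [eM] at k1
    rw [Pj.map_sup, restL_sup, sup_comm] at k2 k3
    show 3 - (2 + w) * s ≤ h (restL E hE (p.map (swp H).M)) (restL E hE (p.map (H.κ s)))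
    rw [eM']
    rw [h_chain] at k1 ⊢
    linarith

/-- EXCHANGE, from all digits to the isotropic form: if the weight of `R` is the highest, the exchanged corner is a
corner `CC` (the unsaturation of `z` is needed up to the level `w σ < 1` of the last window only) -/
theorem C0.swap_cc (c : C0 H f w1 w Sc) (hww : w < w1) (hz : Fz H f w1 w Sc) (hσ : w1 * σ = 1)
    (hle : ∀ s ∈ Sc, s ≤ σ) (hd : Dns Sc σ) (hu : UnA H w ρ Sc) (hρ : 0 < ρ) :
    CC (swp H) (swf f) w w1 (ρ * (w / w1)) Sc := by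
  have hw0 : 0 < w := lt_of_lt_of_le one_pos c.hw
  have hw10 : 0 < w1 := lt_of_lt_of_le one_pos c.hw1
  have h1 := C0.unsR c hww hz hσ hle hd (UnA.unb hu hw0 hd)
  refine C0.cc (C0.swap c hww hz hσ hle) hww.le hσ hd ?_ (by positivity)
  intro s hs T p E hE a b ha hab hb
  exact h1 T p E hE a b ha hab (hb.trans (by rw [← hσ]; exact mul_le_mul_of_nonneg_left (hle s hs) hw10.le))

/-- row B_SWAP -/
theorem st_swap : ST_SWAP := fun _ _ _ w1 w ρ _ _ c hu hρ hww hz hσ hle hd =>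
  ⟨ρ * (w / w1), mul_pos hρ (div_pos (lt_of_lt_of_le one_pos c.hw) (lt_of_lt_of_le one_pos c.hw1)),
    C0.swap_cc c hww hz hσ hle hd hu hρ⟩

end

end Pool.Agent.Helper30.UNS
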