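import Pool.Agent.Helper30.UNS.Ev
import Pool.Agent.Helper30.UNS.Rl

/-! `z` IS UNSATURATED given all digits of the other coordinates, near the level `η c` of a typical window `c`: in the
space over any label, at the depth `e n`, on all events of all extensions. -/

set_option autoImplicit false

namespace Pool.Agent.Helper30.UNS

open Finset Filter Topology Pool.Agent.Helper69.RK Pool.Agent.Helper31.EC Pool.Agent.Helper31.EC.Sp
open Pool.Agent.Helper40.EL Pool.Agent.Helper52.KP Pool.Agent.Helper42.NS Pool.Agent.Helper91.GR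
open Pool.Agent.Helper80.HCI

noncomputable section

variable {S : Sp} {m N : ℕ}

/-- input of NC on all events of all extensions, at the windows near `c`: the numbers `h(P_u|t)`, the slabs, the sheets,
the fullness of the other coordinates -/
structure NcH (C : Cd m N) (s : Sys S m) (c d : ℝ) (lam eta y : ℝ → ℝ) : Prop where
  yr : ∀ (T : Sp) (p : Pj T S) (E : ∀ k, (T.F k).Ω → Prop) (hE : 0 < ul (T.pr E)) (u : ℝ), 0 ≤ u → u ≤ 1 →
    (s.im p E hE).F 0 u = y u
  wn : ∀ (T : Sp) (p : Pj T S) (E : ∀ k, (T.F k).Ω → Prop) (hE : 0 < ul (T.pr E)) (c' : ℝ), |c' - c| < d →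
    WN C (s.im p E hE) c' (lam c') (eta c')
  ql : ∀ c' : ℝ, |c' - c| < d → c' ≤ lam c' ∧ lam c' ≤ 1

/-- UNSATURATED TOP COORDINATE, level 1 -/
theorem uns_sys (C : Cd m N) {s : Sys S m} {c d w w1 y' : ℝ} {lam eta y : ℝ → ℝ} (H : NcH C s c d lam eta y)
    (hd : 0 < d) (hη : HasDerivAt eta w c) (hw : 1 ≤ w) (hl : HasDerivAt lam w1 c)
    (hor : lam c < eta c ∨ (lam c = eta c ∧ w1 = w)) (hy : HasDerivAt y y' (eta c)) (h0 : 0 < eta c) (h1 : eta c < 1)
    {A ε : ℝ} (hA : 0 ≤ A) (hε : 0 < ε) :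
    ∃ e0 : ℝ, 0 < e0 ∧ ∀ (e : ℝ) (he : 0 < e), e ≤ e0 → ∀ (l : Lab S) (W : Sp) (p : Pj W (l.ovr e he))
      (E : ∀ k, (W.F k).Ω → Prop) (hE : 0 < ul (W.pr E)) (u v : ℝ), -A ≤ u → u ≤ v → v ≤ A →
      h (restL E hE (p.map (l.upL e he (TR.dg (pc s C.z.succ) (eta c + v * e)))))
        (restL E hE (p.map (l.upL e he (C.M s 1 ⊔ (TR.dg (pc s C.z.succ) (eta c + u * e) ⊔ s.T))))) ≤
        (y' - (N + 1)) * (v - u) + ε := by
  obtain ⟨ε', hε', hε2⟩ : ∃ ε' : ℝ, 0 < ε' ∧ (N + 3) * ε' ≤ ε := ⟨ε / (N + 3), by positivity, by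
    rw [mul_div_cancel₀]
    positivity⟩
  obtain ⟨e1, he1, g1⟩ := exists_win hη hw hl hor hA hε' hd
  obtain ⟨e2, he2, g2⟩ := incr_e hy hA hε'
  obtain ⟨e3, he3, g3, g4⟩ : ∃ e3 : ℝ, 0 < e3 ∧ A * e3 ≤ eta c ∧ A * e3 ≤ 1 - eta c := by
    refine ⟨min (eta c) (1 - eta c) / (A + 1), div_pos (lt_min h0 (by linarith)) (by positivity), ?_, ?_⟩
    · rw [← mul_div_assoc, div_le_iff₀ (by positivity)]
      have a1 := min_le_left (eta c) (1 - eta c)
      have a2 := mul_le_mul_of_nonneg_left a1 hA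
      nlinarith
    · rw [← mul_div_assoc, div_le_iff₀ (by positivity)]
      have a1 := min_le_right (eta c) (1 - eta c)
      have a2 := mul_le_mul_of_nonneg_left a1 hA
      nlinarith
  refine ⟨min (min e1 e2) e3, by positivity, fun e he hee l W p E hE u v hu huv hv => ?_⟩
  have k1 : e ≤ e1 := hee.trans ((min_le_left _ _).trans (min_le_left _ _))
  have k2 : e ≤ e2 := hee.trans ((min_le_left _ _).trans (min_le_right _ _))
  have k3 : e ≤ e3 := hee.trans (min_le_right _ _)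
  have hua : |u| ≤ A := abs_le.2 ⟨hu, huv.trans hv⟩
  have hva : |v| ≤ A := abs_le.2 ⟨hu.trans huv, hv⟩
  have hAe : A * e ≤ A * e3 := mul_le_mul_of_nonneg_left k3 hA
  have b1 : -(A * e) ≤ u * e := by
    have := mul_le_mul_of_nonneg_right hu he.le
    linarith
  have b2 : u * e ≤ v * e := mul_le_mul_of_nonneg_right huv he.le
  have b3 : v * e ≤ A * e := mul_le_mul_of_nonneg_right hv he.le
  obtain ⟨c', hc1, hc2, hc3⟩ := g1 e he k1 u hua
  obtain ⟨q1, q2⟩ := H.ql c' hc1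
  have n1 := nc_ev (l := l) (he := he) (p := p) (E := E) hE C s (c := c') (lam := lam c') (eta := eta c')
    (r := eta c + u * e) (r' := eta c + v * e) q1 q2 hc2 (by linarith) (by linarith)
    (H.wn (exl l p).sp (exl l p).pj E hE c' hc1)
  refine n1.trans ?_
  have z1 : (sysE l p E hE s).F 0 (eta c + v * e) = y (eta c + v * e) :=
    H.yr (exl l p).sp (exl l p).pj E hE _ (by linarith) (by linarith)
  have z2 : (sysE l p E hE s).F 0 (eta c + u * e) = y (eta c + u * e) :=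
    H.yr (exl l p).sp (exl l p).pj E hE _ (by linarith) (by linarith)
  rw [z1, z2, div_le_iff₀ he]
  have y1 := abs_le.1 (g2 e he k2 u hua)
  have y2 := abs_le.1 (g2 e he k2 v hva)
  have m1 : max (lam c' - (eta c + u * e)) 0 ≤ ε' * e := max_le (by linarith) (by positivity)
  have m2 : ((N : ℝ) + 1) * max (lam c' - (eta c + u * e)) 0 ≤ (N + 1) * (ε' * e) :=
    mul_le_mul_of_nonneg_left m1 (by positivity)
  have m3 : ((N : ℝ) + 3) * ε' * e ≤ ε * e := mul_le_mul_of_nonneg_right hε2 he.le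
  nlinarith [y1.1, y2.2]

end

end Pool.Agent.Helper30.UNS
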